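import Pool.Agent.H.MP_cba12a_lc.Algo8

/-!
The learner: a search over sets of variables which keeps the sets that have a large Fourier
coefficient or an extension by one variable with a large coefficient, followed by the greedy cover
over all signed versions of these sets together with few further literals.
-/

namespace Pool.Agent.H.MP_cba12a_lc.SP

open Pool.Agent.H.MP_5be563_lc.PT

/-- the coefficient on `R` is large in absolute value on the sample -/
def big (Θ : ℕ) (S : Samples) (R : List Lit) : Bool :=
  heavy Θ S R || decide (cntx S false R * Θ + S.length ≤ cntx S true R * Θ)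

/-- the variables, as literals -/
def vars (n : ℕ) : List Lit := (List.range n).map fun i => (i, true)

/-- the members of `V` which are in `R` or equal to `a`, in the order of `V` -/
def can (V R : List Lit) (a : Lit) : List Lit := V.filter fun l => decide (l ∈ R) || (l == a)

/-- `R` or an extension by one element is large on the sample -/
def alv (Θ : ℕ) (V : List Lit) (S : Samples) (R : List Lit) : Bool :=
  big Θ S R || V.any fun a => big Θ S (can V R a)

/-- all extensions by one element which are kept -/
def exts (Θ : ℕ) (V : List Lit) (S : Samples) (L : List (List Lit)) : List (List Lit) :=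
  (L.flatMap fun R => V.map fun a => can V R a).filter fun R => alv Θ V S R

/-- add a set which is not yet in the list -/
def addU (acc : List (List Lit)) (R : List Lit) : List (List Lit) :=
  if R ∈ acc then acc else R :: acc

/-- the list without repetitions -/
def dedu (L : List (List Lit)) : List (List Lit) := L.foldl addU []

/-- one level of the search; at most `N` sets are kept -/
def lev (N Θ : ℕ) (V : List Lit) (S : Samples) (L : List (List Lit)) : List (List Lit) :=
  if (dedu (exts Θ V S L)).length ≤ N then dedu (exts Θ V S L) else []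

/-- the sets found in `j` steps -/
def lvl (N Θ : ℕ) (V : List Lit) (S : Samples) (j : ℕ) : List (List Lit) :=
  (lev N Θ V S)^[j] [[]]

/-- the sets found in less than `J` steps -/
def found (N Θ J : ℕ) (V : List Lit) (S : Samples) : List (List Lit) :=
  (List.range J).flatMap fun j => lvl N Θ V S j

/-- both literals of the variables of `C` -/
def both (C : List Lit) : List Lit := C.flatMap fun l => [(l.1, false), (l.1, true)]

/-- the candidates: a signed version of a set which was found and at most `r` further literals -/
def cands (r N Θ J n : ℕ) (S : Samples) : List (List Lit) :=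
  (found N Θ J (vars n) S).flatMap fun R => (subs N (both R)).flatMap fun D =>
    (seeds N r (allLits n)).map fun Z => D ++ Z

/-- the learner with all its parameters -/
def coreP (r K B R N Θ J n : ℕ) (S : Samples) : List (List Lit) :=
  greedy8 K B R S (cands r N Θ J n S)

section poly

variable {β : Type} [Enc β]

@[fun_prop]
theorem poly_big {Θ : β → ℕ} {S : β → Samples} {R : β → List Lit} (hΘ : Poly Θ)
    (hS : Poly S) (hR : Poly R) : Poly (fun p => big (Θ p) (S p) (R p)) := by
  unfold big
  fun_prop

@[fun_prop]
theorem poly_vars {n : β → ℕ} (hn : Poly n) : Poly (fun p => vars (n p)) := by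
  unfold vars
  fun_prop

@[fun_prop]
theorem poly_can {V R : β → List Lit} {a : β → Lit} (hV : Poly V) (hR : Poly R)
    (ha : Poly a) : Poly (fun p => can (V p) (R p) (a p)) := by
  unfold can
  fun_prop

@[fun_prop]
theorem poly_alv {Θ : β → ℕ} {V : β → List Lit} {S : β → Samples} {R : β → List Lit}
    (hΘ : Poly Θ) (hV : Poly V) (hS : Poly S) (hR : Poly R) :
    Poly (fun p => alv (Θ p) (V p) (S p) (R p)) := by
  unfold alv
  fun_prop

@[fun_prop]
theorem poly_exts {Θ : β → ℕ} {V : β → List Lit} {S : β → Samples} {L : β → List (List Lit)}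
    (hΘ : Poly Θ) (hV : Poly V) (hS : Poly S) (hL : Poly L) :
    Poly (fun p => exts (Θ p) (V p) (S p) (L p)) := by
  unfold exts
  fun_prop

theorem addU_foldl (L : List (List Lit)) : ∀ acc : List (List Lit), acc.Nodup →
    (L.foldl addU acc).Nodup ∧ (∀ R, R ∈ L.foldl addU acc ↔ R ∈ acc ∨ R ∈ L) ∧
      (L.foldl addU acc).length ≤ acc.length + L.length := by
  induction L with
  | nil => intro acc h; simpa using h
  | cons C L ih =>
    intro acc h
    rw [List.foldl_cons]
    have h1 : (addU acc C).Nodup := by
      unfold addU
      split_ifs with hc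
      · exact h
      · exact List.nodup_cons.2 ⟨hc, h⟩
    have h2 : ∀ R, R ∈ addU acc C ↔ R ∈ acc ∨ R = C := by
      intro R
      unfold addU
      split_ifs with hc
      · constructor
        · exact Or.inl
        · rintro (h | rfl)
          · exact h
          · exact hc
      · rw [List.mem_cons]
        exact or_comm
    have h3 : (addU acc C).length ≤ acc.length + 1 := by
      unfold addU
      split_ifs <;> simp
    obtain ⟨g1, g2, g3⟩ := ih (addU acc C) h1
    refine ⟨g1, ?_, ?_⟩
    · intro R
      rw [g2, h2, List.mem_cons, or_assoc]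
    · rw [List.length_cons]
      omega

theorem nodup_dedu (L : List (List Lit)) : (dedu L).Nodup := (addU_foldl L [] List.nodup_nil).1

theorem mem_dedu {L : List (List Lit)} {R : List Lit} : R ∈ dedu L ↔ R ∈ L := by
  unfold dedu
  rw [(addU_foldl L [] List.nodup_nil).2.1]
  simp

@[fun_prop]
theorem poly_addU {L : β → List (List Lit)} {R : β → List Lit} (hL : Poly L) (hR : Poly R) :
    Poly (fun p => addU (L p) (R p)) := by
  unfold addU
  fun_prop

@[fun_prop]
theorem poly_dedu {L : β → List (List Lit)} (hL : Poly L) : Poly (fun p => dedu (L p)) := by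
  unfold dedu
  refine Poly.foldl (f := fun q : β × List (List Lit) × List Lit => addU q.2.1 q.2.2)
    (s0 := fun _ => []) (l := L)
    (B := fun p => sz (L p) * (sz (L p) + 1) + 1)
    (by fun_prop) hL (by fun_prop) ?_ ?_
  · exact (hL.sz_le.mul (hL.sz_le.add (PBdd.const 1))).add (PBdd.const 1)
  · intro p l₁ l₂ h
    have hb := addU_foldl l₁ [] List.nodup_nil
    refine (sz_le_of_forall _ (sz (L p)) ?_).trans ?_
    · intro C hC
      have hC' : C ∈ L p := by
        rw [h]
        exact List.mem_append.2 (Or.inl (by simpa using (hb.2.1 C).1 hC))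
      exact (sz_mem_lt hC').le
    · have h1 : (l₁.foldl addU []).length ≤ sz (L p) := by
        have h2 := hb.2.2
        have h3 := length_lt_sz (L p)
        have h4 : l₁.length ≤ (L p).length := by rw [h, List.length_append]; omega
        rw [List.length_nil] at h2
        omega
      exact Nat.succ_le_succ (Nat.mul_le_mul_right (sz (L p) + 1) h1)

@[fun_prop]
theorem poly_lev {N Θ : β → ℕ} {V : β → List Lit} {S : β → Samples} {L : β → List (List Lit)}
    (hN : Poly N) (hΘ : Poly Θ) (hV : Poly V) (hS : Poly S) (hL : Poly L) :
    Poly (fun p => lev (N p) (Θ p) (V p) (S p) (L p)) := by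
  unfold lev
  fun_prop

theorem mem_exts {Θ : ℕ} {V : List Lit} {S : Samples} {L : List (List Lit)} {C : List Lit} :
    C ∈ exts Θ V S L ↔ (∃ R ∈ L, ∃ a ∈ V, can V R a = C) ∧ alv Θ V S C = true := by
  unfold exts
  rw [List.mem_filter]
  simp only [List.mem_flatMap, List.mem_map]

theorem bd_lvl (N Θ : ℕ) (V : List Lit) (S : Samples) (j : ℕ) :
    Bd (N + 1) V.length V (lvl N Θ V S j) := by
  unfold lvl
  induction j with
  | zero => exact ⟨by simp, by simp⟩
  | succ j ih =>
    rw [Function.iterate_succ_apply']
    generalize (lev N Θ V S)^[j] [[]] = L at ih ⊢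
    unfold lev
    split_ifs with h
    · refine ⟨by omega, ?_⟩
      intro C hC
      obtain ⟨⟨R, hR, a, ha, rfl⟩, -⟩ := mem_exts.1 (mem_dedu.1 hC)
      unfold can
      refine ⟨List.length_filter_le _ _, ?_⟩
      intro l hl
      exact (List.mem_filter.1 hl).1
    · exact ⟨by simp, by simp⟩

@[fun_prop]
theorem poly_lvl {N Θ j : β → ℕ} {V : β → List Lit} {S : β → Samples}
    (hN : Poly N) (hΘ : Poly Θ) (hV : Poly V) (hS : Poly S) (hj : Poly j) :
    Poly (fun p => lvl (N p) (Θ p) (V p) (S p) (j p)) := by
  unfold lvl
  refine Poly.iterate (f := fun p L => lev (N p) (Θ p) (V p) (S p) L)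
    (s := fun p => [[]]) (n := j)
    (B := fun p => (sz (N p) + 1) * (sz (V p) * (sz (V p) + 1) + 2) + 1)
    (by fun_prop) (by fun_prop) hj ?_ ?_
  · exact ((hN.sz_le.add (PBdd.const 1)).mul ((hV.sz_le.mul (hV.sz_le.add (PBdd.const 1))).add
      (PBdd.const 2))).add (PBdd.const 1)
  · intro p i hi
    have h := (bd_lvl (N p) (Θ p) (V p) (S p) i).mono (m' := sz (N p) + 1)
      (k' := sz (V p)) (by simp only [sz_nat]; omega) (length_lt_sz (V p)).le
    exact h.sz_le

@[fun_prop]
theorem poly_found {N Θ J : β → ℕ} {V : β → List Lit} {S : β → Samples}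
    (hN : Poly N) (hΘ : Poly Θ) (hV : Poly V) (hS : Poly S) (hJ : Poly J) :
    Poly (fun p => found (N p) (Θ p) (J p) (V p) (S p)) := by
  unfold found
  fun_prop

@[fun_prop]
theorem poly_both {C : β → List Lit} (hC : Poly C) : Poly (fun p => both (C p)) := by
  unfold both
  fun_prop

@[fun_prop]
theorem poly_cands {r N Θ J n : β → ℕ} {S : β → Samples} (hr : Poly r)
    (hN : Poly N) (hΘ : Poly Θ) (hJ : Poly J) (hn : Poly n) (hS : Poly S) :
    Poly (fun p => cands (r p) (N p) (Θ p) (J p) (n p) (S p)) := by
  unfold cands
  fun_prop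

@[fun_prop]
theorem poly_coreP {r K B R N Θ J n : β → ℕ} {S : β → Samples} (hr : Poly r)
    (hK : Poly K) (hB : Poly B) (hR : Poly R) (hN : Poly N) (hΘ : Poly Θ)
    (hJ : Poly J) (hn : Poly n) (hS : Poly S) :
    Poly (fun q => coreP (r q) (K q) (B q) (R q) (N q) (Θ q) (J q) (n q) (S q)) := by
  unfold coreP
  fun_prop

end poly

end Pool.Agent.H.MP_cba12a_lc.SP
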