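import Pool.Agent.H.MP_cba12a_lc.SP.Lost
import Pool.Agent.H.MP_cba12a_lc.SR.Bad

/-!
For most choices of the signs few points are lost, or the formula is almost always true.
-/

namespace Pool.Agent.H.MP_cba12a_lc.SP

open Finset SR

variable {n s : ℕ}

/-
Markov for the average over the signs, in the two cases `32 * a ^ 2 * d ≤ Z S` and not.
-/
theorem exists_bad (S : Fin s → Finset (Fin n)) (m0 r W a d : ℕ) (δ θ κ : ℝ) (ha : 1 ≤ a)
    (hd : 1 ≤ d) (hδ : 0 ≤ δ) (hθ0 : 0 < θ) (hθ : 2 * θ ≤ (1 / 3) ^ m0 * (δ * (1 / 2) ^ W))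
    (hκ0 : 0 ≤ κ) (hκ : ∀ j, r < (S j).card → ((S j).card : ℝ) * (3 / 4) ^ (S j).card ≤ κ)
    (hE : s * (1 / 2) ^ (W + 1) +
      32 * (a : ℝ) ^ 2 * d * ((1 / 2) ^ (m0 + 1) + δ + κ) ≤ 1 / (8 * a * d)) :
    ∃ Bad : Finset (Fin s → Fin n → Bool),
      d * Bad.card ≤ Fintype.card (Fin s → Fin n → Bool) ∧ ∀ σ, σ ∉ Bad →
        pr (fun x => sdnf S σ x = false) ≤ 1 / (32 * (a : ℝ) ^ 2) ∨
        pr (fun x => Ls r W θ S σ x) ≤ 1 / (8 * (a : ℝ)) := by
  have ha' : (0 : ℝ) < a := by exact_mod_cast ha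
  have hd' : (0 : ℝ) < d := by exact_mod_cast hd
  rcases le_or_gt (32 * (a : ℝ) ^ 2 * d) (Z S) with hZ | hZ
  · have h1 : av (fun σ => pr fun x => sdnf S σ x = false) ≤ 1 / Z S := by
      rw [av_pr fun σ x => sdnf S σ x = false]
      have h2 : ∀ x : Fin n → Bool, (av fun σ => ind (sdnf S σ x = false)) ≤ 1 / Z S := by
        intro x
        have h3 : (fun σ => ind (sdnf S σ x = false)) = fun σ => ind (Nst S σ x = ∅) := by
          funext σ
          congr 1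
          rw [← Bool.not_eq_true, sdnf_iff, not_nonempty_iff_eq_empty]
        rw [h3]
        exact av_none S x
      have h4 : (∑ x : Fin n → Bool, av fun σ => ind (sdnf S σ x = false)) ≤
          ∑ _x : Fin n → Bool, 1 / Z S := sum_le_sum fun x _ => h2 x
      rw [sum_const, card_univ, Fintype.card_pi, nsmul_eq_mul] at h4
      simp only [Fintype.card_bool, prod_const, card_univ, Fintype.card_fin] at h4
      push_cast at h4
      rw [div_le_iff₀ (by positivity)]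
      linarith
    have h5 : (1 : ℝ) / Z S ≤ 1 / (32 * (a : ℝ) ^ 2) / d := by
      rw [div_div]
      exact one_div_le_one_div_of_le (by positivity) hZ
    obtain ⟨Bad, hB1, hB2⟩ := markov (fun σ => pr fun x => sdnf S σ x = false)
      (fun σ => pr_nonneg _) (1 / (32 * (a : ℝ) ^ 2)) (by positivity) d hd (h1.trans h5)
    exact ⟨Bad, hB1, fun σ hσ => Or.inl (hB2 σ hσ)⟩
  · have h1 := av_lost S m0 r W δ θ κ hδ hθ0 hθ hκ0 hκ
    have h2 : s * (1 / 2 : ℝ) ^ (W + 1) + Z S * ((1 / 2) ^ (m0 + 1) + δ + κ) ≤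
        s * (1 / 2 : ℝ) ^ (W + 1) +
          32 * (a : ℝ) ^ 2 * d * ((1 / 2) ^ (m0 + 1) + δ + κ) := by
      gcongr
    have h3 : (1 : ℝ) / (8 * a * d) = 1 / (8 * (a : ℝ)) / d := by
      rw [div_div]
    obtain ⟨Bad, hB1, hB2⟩ := markov (fun σ => pr fun x => Ls r W θ S σ x)
      (fun σ => pr_nonneg _) (1 / (8 * (a : ℝ))) (by positivity) d hd
      (h1.trans (h2.trans (hE.trans h3.le)))
    exact ⟨Bad, hB1, fun σ hσ => Or.inr (hB2 σ hσ)⟩

end Pool.Agent.H.MP_cba12a_lc.SP
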