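import Pool.Agent.H.MP_cba12a_lc.SR.Ind
import Pool.Agent.H.MP_cba12a_lc.SR.Cnt
import Pool.Agent.H.MP_cba12a_lc.SR.Siz
import Pool.Agent.H.MP_cba12a_lc.SR.Pre

/-!
Definitions for the search in all orders.
-/

namespace Pool.Agent.H.MP_cba12a_lc.SP

open Finset SR

variable {n s : ℕ}

/-- the chance that some term holds and all terms which hold are in `K` -/
noncomputable def BB (S : Fin s → Finset (Fin n)) (σ : Fin s → Fin n → Bool)
    (K : Finset (Fin s)) : ℝ := pr fun y => (Nst S σ y).Nonempty ∧ Nst S σ y ⊆ K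

/-- `j` is the first element of `K` -/
def Fst (K : Finset (Fin s)) (j : Fin s) : Prop := j ∈ K ∧ ∀ k ∈ K, j ≤ k

/-- the term `j` dominates the other terms of `K` -/
def Gd (θ : ℝ) (S : Fin s → Finset (Fin n)) (σ : Fin s → Fin n → Bool) (K : Finset (Fin s))
    (j : Fin s) : Prop := 2 * θ ≤ BB S σ K - 2 * BB S σ (K.erase j)

/-- the coefficients on `A` and on its extensions by one element of `T` are small -/
def Bl (θ : ℝ) (g : (Fin n → Bool) → Bool) (T A : Finset (Fin n)) : Prop :=
  |co (fun _ => true) g A| < θ ∧ ∀ i ∈ T \ A, |co (fun _ => true) g (insert i A)| < θ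

/-- the coefficients on `A` and on its extensions by one element of `T` are negative -/
def Ng (G : (Fin n → Bool) → Bool) (T A : Finset (Fin n)) (x : Fin n → Bool) : Prop :=
  co x G A < 0 ∧ ∀ i ∈ T \ A, co x G (insert i A) < 0

/-- subsets of `T` which can be reached from the empty set, element by element, through sets whose
coefficients are not all small -/
inductive Rc (θ : ℝ) (g : (Fin n → Bool) → Bool) (T : Finset (Fin n)) : Finset (Fin n) → Prop
  | nil : Rc θ g T ∅
  | step {A : Finset (Fin n)} {i : Fin n} : Rc θ g T A → i ∈ T \ A →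
      ¬ Bl θ g T (insert i A) → Rc θ g T (insert i A)

/-- a large part of `T` can be reached -/
def Rf (θ : ℝ) (g : (Fin n → Bool) → Bool) (T : Finset (Fin n)) : Prop :=
  ∃ A ⊆ T, (T \ A).card ≤ 3 ∧ Rc θ g T A

/-- the term with variable set `T` will be found -/
def Fd (r W : ℕ) (θ : ℝ) (g : (Fin n → Bool) → Bool) (T : Finset (Fin n)) : Prop :=
  T.card ≤ r ∨ (T.card ≤ W ∧ Rf θ g T)

/-- the point `x` satisfies a term but no term which will be found -/
def Ls (r W : ℕ) (θ : ℝ) (S : Fin s → Finset (Fin n)) (σ : Fin s → Fin n → Bool)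
    (x : Fin n → Bool) : Prop :=
  (Nst S σ x).Nonempty ∧ ∀ j ∈ Nst S σ x, ¬ Fd r W θ (sdnf S σ) (S j)

/-- the set `D` and the part of `T \ D` behind its first `p` elements -/
def nx (T D : Finset (Fin n)) (p : ℕ) : Finset (Fin n) := D ∪ ((T \ D) \ pre (T \ D) p)

/-- The pattern of `x` on `T` is compatible with the search being stuck above `D`: in the order
`D`, `T \ D` a proper initial segment of co-size at least `3` is negative, and then either an
initial segment of `nx T D p` is negative or the same is true above `nx T D p`. -/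
inductive PL (G : (Fin n → Bool) → Bool) (T : Finset (Fin n)) (x : Fin n → Bool) :
    Finset (Fin n) → Prop
  | stop {D : Finset (Fin n)} {p k : ℕ} : 1 ≤ p → p + 3 ≤ (T \ D).card →
      Ng G T (D ∪ pre (T \ D) p) x → 1 ≤ k → k ≤ (nx T D p).card →
      Ng G T (pre (nx T D p) k) x → PL G T x D
  | step {D : Finset (Fin n)} {p : ℕ} : 1 ≤ p → p + 3 ≤ (T \ D).card →
      Ng G T (D ∪ pre (T \ D) p) x → PL G T x (nx T D p) → PL G T x D

end Pool.Agent.H.MP_cba12a_lc.SP
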