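import Pool.Agent.H.MP_cba12a_lc.SP.Alg
import Pool.Agent.H.MP_cba12a_lc.SP.Defs

/-!
The search finds every set which can be reached.
-/

namespace Pool.Agent.H.MP_cba12a_lc.SP

open Finset SR

variable {n m : ℕ}

/-! ### The test for large coefficients -/

theorem light_iff {Θ : ℕ} (hΘ : 0 < Θ) (hm : 0 < m) {f : (Fin n → Bool) → Bool}
    {ω : Fin m → Fin n → Bool} {R : List Lit} :
    cntx (smp f ω) false R * Θ + (smp f ω).length ≤ cntx (smp f ω) true R * Θ ↔
      1 / (Θ : ℝ) ≤ em ω (evx f true R) - em ω (evx f false R) := by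
  have hm' : (0 : ℝ) < m := by exact_mod_cast hm
  have hΘ' : (0 : ℝ) < Θ := by exact_mod_cast hΘ
  rw [cntx_smp, cntx_smp, length_smp]
  unfold em
  rw [← sub_div, div_le_div_iff₀ hΘ' hm', one_mul]
  constructor
  · intro h
    have h' : (ec ω (evx f false R) : ℝ) * Θ + m ≤ ec ω (evx f true R) * Θ := by exact_mod_cast h
    linarith
  · intro h
    have h' : (ec ω (evx f false R) : ℝ) * Θ + m ≤ ec ω (evx f true R) * Θ := by linarith
    exact_mod_cast h'

theorem big_spec {Θ : ℕ} (hΘ : 0 < Θ) (hm : 0 < m) {f g : (Fin n → Bool) → Bool}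
    {o : Fin n → Bool} {ω : Fin m → Fin n → Bool} {τ : ℝ} (hrep : RepX f ω τ)
    (hfg : dst f g ≤ τ) (hτ : 8 * τ ≤ 1 / Θ) {R : List Lit}
    (hR : ∀ l ∈ R, ∃ i : Fin n, l = ((i : ℕ), o i)) (hnd : (R.map Prod.fst).Nodup) :
    (big Θ (smp f ω) R = true → 1 / (2 * Θ) ≤ |co o g (fs n R)|) ∧
      (2 / Θ ≤ |co o g (fs n R)| → big Θ (smp f ω) R = true) := by
  have hΘ' : (0 : ℝ) < Θ := by exact_mod_cast hΘ
  have hn : ∀ l ∈ R, l.1 < n := by
    intro l hl
    obtain ⟨i, rfl⟩ := hR l hl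
    exact i.2
  have hnd' : R.Nodup := List.Nodup.of_map _ hnd
  have hh := heavy_spec hΘ hm hrep hfg hτ hR hnd
  have hc := co_eq (o := o) g hR hnd
  have h1 := abs_lt.1 (hrep false R hnd' hn)
  have h2 := abs_lt.1 (hrep true R hnd' hn)
  have h3 := mu_evx_sub_le f g false R
  have h4 := mu_evx_sub_le g f false R
  have h5 := mu_evx_sub_le f g true R
  have h6 := mu_evx_sub_le g f true R
  rw [dst_comm g f] at h4 h6
  have e1 : (1 : ℝ) / (2 * Θ) = 1 / 2 * (1 / Θ) := by field_simp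
  have e2 : (2 : ℝ) / Θ = 2 * (1 / Θ) := by ring
  unfold big
  rw [Bool.or_eq_true, decide_eq_true_iff, light_iff hΘ hm]
  constructor
  · rintro (h | h)
    · exact (hh.1 h).trans (le_abs_self _)
    · refine le_trans ?_ (neg_le_abs _)
      rw [hc, e1]
      linarith
  · intro h
    rcases le_or_gt 0 (co o g (fs n R)) with h0 | h0
    · left
      rw [abs_of_nonneg h0] at h
      exact hh.2 h
    · right
      rw [abs_of_neg h0, hc, e2] at h
      linarith

/-! ### Sets as lists -/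

/-- the list which represents a set of variables -/
noncomputable def cl (A : Finset (Fin n)) : List Lit :=
  (vars n).filter fun l => decide (∃ i ∈ A, l = ((i : ℕ), true))

theorem mem_vars {l : Lit} : l ∈ vars n ↔ ∃ i : Fin n, l = ((i : ℕ), true) := by
  unfold vars
  rw [List.mem_map]
  constructor
  · rintro ⟨a, ha, rfl⟩
    exact ⟨⟨a, List.mem_range.1 ha⟩, rfl⟩
  · rintro ⟨i, rfl⟩
    exact ⟨i, List.mem_range.2 i.2, rfl⟩

theorem mem_cl {A : Finset (Fin n)} {l : Lit} : l ∈ cl A ↔ ∃ i ∈ A, l = ((i : ℕ), true) := by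
  unfold cl
  rw [List.mem_filter, decide_eq_true_iff, mem_vars]
  constructor
  · exact fun h => h.2
  · rintro ⟨i, hi, rfl⟩
    exact ⟨⟨i, rfl⟩, i, hi, rfl⟩

theorem cl_ori (A : Finset (Fin n)) : ∀ l ∈ cl A, ∃ i : Fin n,
    l = ((i : ℕ), (fun _ => true : Fin n → Bool) i) := by
  intro l hl
  obtain ⟨i, _, rfl⟩ := mem_cl.1 hl
  exact ⟨i, rfl⟩

theorem cl_nodup (A : Finset (Fin n)) : ((cl A).map Prod.fst).Nodup := by
  have h1 : ((vars n).map Prod.fst) = List.range n := by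
    unfold vars
    rw [List.map_map]
    exact List.map_id'' (fun _ => rfl) _
  have h2 : ((cl A).map Prod.fst).Sublist ((vars n).map Prod.fst) :=
    (List.filter_sublist).map _
  rw [h1] at h2
  exact h2.nodup List.nodup_range

theorem fs_cl (A : Finset (Fin n)) : fs n (cl A) = A := by
  ext i
  rw [mem_fs, List.mem_map]
  constructor
  · rintro ⟨l, hl, h⟩
    obtain ⟨j, hj, rfl⟩ := mem_cl.1 hl
    have : j = i := Fin.ext h
    rwa [← this]
  · intro hi
    exact ⟨_, mem_cl.2 ⟨i, hi, rfl⟩, rfl⟩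

theorem can_cl (A : Finset (Fin n)) (i : Fin n) :
    can (vars n) (cl A) ((i : ℕ), true) = cl (insert i A) := by
  change List.filter (fun l => decide (l ∈ cl A) || (l == ((i : ℕ), true))) (vars n) =
    List.filter (fun l => decide (∃ k ∈ insert i A, l = ((k : ℕ), true))) (vars n)
  refine List.filter_congr fun l hl => ?_
  rw [Bool.eq_iff_iff, Bool.or_eq_true, decide_eq_true_iff, decide_eq_true_iff, beq_iff_eq, mem_cl]
  constructor
  · rintro (⟨j, hj, rfl⟩ | rfl)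
    · exact ⟨j, mem_insert_of_mem hj, rfl⟩
    · exact ⟨i, mem_insert_self _ _, rfl⟩
  · rintro ⟨j, hj, rfl⟩
    rcases mem_insert.1 hj with rfl | hj
    · exact Or.inr rfl
    · exact Or.inl ⟨j, hj, rfl⟩

theorem length_cl (A : Finset (Fin n)) : (cl A).length = A.card := by
  have h1 : ((cl A).map Prod.fst).toFinset = A.map Fin.valEmbedding := by
    ext a
    rw [List.mem_toFinset, List.mem_map, mem_map]
    constructor
    · rintro ⟨l, hl, rfl⟩
      obtain ⟨i, hi, rfl⟩ := mem_cl.1 hl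
      exact ⟨i, hi, rfl⟩
    · rintro ⟨i, hi, rfl⟩
      exact ⟨_, mem_cl.2 ⟨i, hi, rfl⟩, rfl⟩
  have h2 := List.toFinset_card_of_nodup (cl_nodup A)
  rw [h1, card_map, List.length_map] at h2
  exact h2.symm

theorem cl_inj {A B : Finset (Fin n)} (h : cl A = cl B) : A = B := by
  rw [← fs_cl A, h, fs_cl]

/-! ### Levels -/

theorem card_large_abs {o : Fin n → Bool} {g : (Fin n → Bool) → Bool}
    {𝓡 : Finset (Finset (Fin n))} {θ : ℝ} (hθ : 0 < θ) (h : ∀ R ∈ 𝓡, θ ≤ |co o g R|) :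
    (𝓡.card : ℝ) * θ ^ 2 ≤ 1 := by
  calc (𝓡.card : ℝ) * θ ^ 2 = ∑ _R ∈ 𝓡, θ ^ 2 := by rw [sum_const, nsmul_eq_mul]
    _ ≤ ∑ R ∈ 𝓡, co o g R ^ 2 := sum_le_sum fun R hR => by
        rw [← sq_abs (co o g R)]
        exact pow_le_pow_left₀ hθ.le (h R hR) 2
    _ ≤ 1 := bessel o g 𝓡

section

variable {N Θ : ℕ} {S : Samples} {g : (Fin n → Bool) → Bool}

theorem alv_iff {A : Finset (Fin n)} : alv Θ (vars n) S (cl A) = true ↔
    big Θ S (cl A) = true ∨ ∃ i : Fin n, big Θ S (cl (insert i A)) = true := by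
  unfold alv
  rw [Bool.or_eq_true, List.any_eq_true]
  refine or_congr_right ?_
  constructor
  · rintro ⟨a, ha, h⟩
    obtain ⟨i, rfl⟩ := mem_vars.1 ha
    rw [can_cl] at h
    exact ⟨i, h⟩
  · rintro ⟨i, h⟩
    exact ⟨((i : ℕ), true), mem_vars.2 ⟨i, rfl⟩, by rw [can_cl]; exact h⟩

/-- a sublist of distinct kept sets is short -/
theorem length_alv_le {L : List (List Lit)} (hΘ : 0 < Θ) (hL : L.Nodup)
    (hLc : ∀ R ∈ L, ∃ A : Finset (Fin n), R = cl A)
    (ha : ∀ R ∈ L, alv Θ (vars n) S R = true)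
    (hbig : ∀ A : Finset (Fin n), big Θ S (cl A) = true →
      1 / (2 * (Θ : ℝ)) ≤ |co (fun _ => true) g A|) :
    L.length ≤ 4 * Θ ^ 2 * (n + 1) := by
  classical
  have hΘ' : (0 : ℝ) < Θ := by exact_mod_cast hΘ
  set 𝓡 : Finset (Finset (Fin n)) :=
    univ.filter fun U => 1 / (2 * (Θ : ℝ)) ≤ |co (fun _ => true) g U| with h𝓡
  have h1 : 𝓡.card ≤ 4 * Θ ^ 2 := by
    have h3 := card_large_abs (o := fun _ => true) (g := g) (𝓡 := 𝓡)
      (θ := 1 / (2 * (Θ : ℝ))) (by positivity) (fun R hR => (mem_filter.1 hR).2)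
    rw [one_div_pow, mul_one_div, div_le_one (by positivity)] at h3
    have h4 : (𝓡.card : ℝ) ≤ ((4 * Θ ^ 2 : ℕ) : ℝ) := by
      push_cast
      linarith [mul_pow (2 : ℝ) Θ 2]
    exact_mod_cast h4
  set 𝓐 : Finset (Finset (Fin n)) :=
    𝓡 ∪ (𝓡 ×ˢ (univ : Finset (Fin n))).image fun p => p.1.erase p.2 with h𝓐
  have h2 : 𝓐.card ≤ 4 * Θ ^ 2 * (n + 1) := by
    calc 𝓐.card ≤ 𝓡.card + ((𝓡 ×ˢ (univ : Finset (Fin n))).image fun p => p.1.erase p.2).card :=
          card_union_le _ _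
      _ ≤ 𝓡.card + (𝓡 ×ˢ (univ : Finset (Fin n))).card := by
          exact Nat.add_le_add_left card_image_le _
      _ = 𝓡.card * (n + 1) := by
          rw [card_product, card_univ, Fintype.card_fin]
          ring
      _ ≤ _ := Nat.mul_le_mul_right _ h1
  have hmem : ∀ R ∈ L, fs n R ∈ 𝓐 := by
    intro R hR
    obtain ⟨A, rfl⟩ := hLc R hR
    rw [fs_cl]
    rcases alv_iff.1 (ha _ hR) with h | ⟨i, h⟩
    · exact mem_union_left _ (mem_filter.2 ⟨mem_univ _, hbig A h⟩)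
    · have h3 : insert i A ∈ 𝓡 := mem_filter.2 ⟨mem_univ _, hbig _ h⟩
      by_cases hi : i ∈ A
      · rw [insert_eq_of_mem hi] at h3
        exact mem_union_left _ h3
      · refine mem_union_right _ (mem_image.2 ⟨(insert i A, i), ?_, ?_⟩)
        · exact mem_product.2 ⟨h3, mem_univ _⟩
        · exact erase_insert hi
  have hcard := card_le_card_of_injOn (s := L.toFinset) (t := 𝓐) (fs n) (by
    intro R hR
    rw [mem_coe, List.mem_toFinset] at hR
    exact hmem R hR) (by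
    intro R hR R1 hR1 heq
    rw [mem_coe, List.mem_toFinset] at hR hR1
    obtain ⟨A, rfl⟩ := hLc R hR
    obtain ⟨A1, rfl⟩ := hLc R1 hR1
    rw [fs_cl, fs_cl] at heq
    rw [heq])
  rw [List.toFinset_card_of_nodup hL] at hcard
  exact hcard.trans h2

theorem lvl_succ (V : List Lit) (j : ℕ) :
    lvl N Θ V S (j + 1) = lev N Θ V S (lvl N Θ V S j) := by
  unfold lvl
  rw [Function.iterate_succ_apply']

theorem exts_cl {L : List (List Lit)} (hL : ∀ R ∈ L, ∃ A : Finset (Fin n), R = cl A) :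
    ∀ R ∈ dedu (exts Θ (vars n) S L), ∃ A : Finset (Fin n), R = cl A := by
  intro R hR
  obtain ⟨⟨R', hR', a, ha, rfl⟩, -⟩ := mem_exts.1 (mem_dedu.1 hR)
  obtain ⟨A, rfl⟩ := hL R' hR'
  obtain ⟨i, rfl⟩ := mem_vars.1 ha
  exact ⟨insert i A, can_cl A i⟩

theorem lvl_cl (j : ℕ) : ∀ R ∈ lvl N Θ (vars n) S j, ∃ A : Finset (Fin n), R = cl A := by
  induction j with
  | zero =>
    intro R hR
    unfold lvl at hR
    rw [Function.iterate_zero, id, List.mem_singleton] at hR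
    refine ⟨∅, ?_⟩
    rw [hR, eq_comm, ← List.length_eq_zero_iff, length_cl, card_empty]
  | succ j ih =>
    intro R hR
    rw [lvl_succ] at hR
    unfold lev at hR
    split_ifs at hR with h
    · exact exts_cl ih R hR
    · simp at hR

theorem lvl_succ_eq (hΘ : 0 < Θ)
    (hbig : ∀ A : Finset (Fin n), big Θ S (cl A) = true →
      1 / (2 * (Θ : ℝ)) ≤ |co (fun _ => true) g A|)
    (hN : 4 * Θ ^ 2 * (n + 1) ≤ N) (j : ℕ) :
    lvl N Θ (vars n) S (j + 1) = dedu (exts Θ (vars n) S (lvl N Θ (vars n) S j)) := by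
  rw [lvl_succ]
  have h1 := length_alv_le (S := S) (g := g) hΘ
    (nodup_dedu (exts Θ (vars n) S (lvl N Θ (vars n) S j))) (exts_cl (lvl_cl j))
    (fun R hR => (mem_exts.1 (mem_dedu.1 hR)).2) hbig
  unfold lev
  rw [if_pos (h1.trans hN)]

theorem mem_lvl {θ : ℝ} (hΘ : 0 < Θ)
    (hbig : ∀ A : Finset (Fin n), big Θ S (cl A) = true →
      1 / (2 * (Θ : ℝ)) ≤ |co (fun _ => true) g A|)
    (hbig' : ∀ A : Finset (Fin n), θ ≤ |co (fun _ => true) g A| → big Θ S (cl A) = true)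
    (hN : 4 * Θ ^ 2 * (n + 1) ≤ N) {T A : Finset (Fin n)} (h : Rc θ g T A) :
    cl A ∈ lvl N Θ (vars n) S A.card := by
  induction h with
  | nil =>
    unfold lvl
    rw [card_empty, Function.iterate_zero, id]
    have : cl (∅ : Finset (Fin n)) = [] := by
      rw [← List.length_eq_zero_iff, length_cl, card_empty]
    rw [this]
    simp
  | @step A i h1 hi hb ih =>
    rw [card_insert_of_notMem (mem_sdiff.1 hi).2, lvl_succ_eq hΘ hbig hN, mem_dedu, mem_exts]
    refine ⟨⟨cl A, ih, ((i : ℕ), true), mem_vars.2 ⟨i, rfl⟩, can_cl A i⟩, ?_⟩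
    rw [alv_iff]
    unfold Bl at hb
    by_cases h2 : |co (fun _ => true) g (insert i A)| < θ
    · right
      have h3 : ¬ ∀ k ∈ T \ insert i A, |co (fun _ => true) g (insert k (insert i A))| < θ :=
        fun h3 => hb ⟨h2, h3⟩
      push Not at h3
      obtain ⟨k, _, hk⟩ := h3
      exact ⟨k, hbig' _ hk⟩
    · left
      exact hbig' _ (not_lt.1 h2)

theorem mem_both {C : List Lit} {l : Lit} : l ∈ both C ↔ ∃ l' ∈ C, l'.1 = l.1 := by
  unfold both
  rw [List.mem_flatMap]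
  constructor
  · rintro ⟨l', hl', h⟩
    simp only [List.mem_cons, List.not_mem_nil, or_false] at h
    rcases h with rfl | rfl
    · exact ⟨l', hl', rfl⟩
    · exact ⟨l', hl', rfl⟩
  · rintro ⟨l', hl', h⟩
    refine ⟨l', hl', ?_⟩
    obtain ⟨a, v⟩ := l
    simp only at h
    subst h
    cases v <;> simp

theorem length_both (C : List Lit) : (both C).length = 2 * C.length := by
  unfold both
  rw [List.length_flatMap]
  simp [mul_comm]

theorem nil_mem_found {J : ℕ} (hJ : 1 ≤ J) : [] ∈ found N Θ J (vars n) S := by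
  unfold found
  rw [List.mem_flatMap]
  refine ⟨0, List.mem_range.2 hJ, ?_⟩
  unfold lvl
  simp

end

theorem exists_cands {f g : (Fin n → Bool) → Bool} {o : Fin n → Bool} {ω : Fin m → Fin n → Bool}
    {τ θ : ℝ} {Θ N J r W : ℕ} {T : Finset (Fin n)} (hm : 0 < m) (hΘ : 0 < Θ)
    (hrepX : RepX f ω τ) (hfg : dst f g ≤ τ) (hτ : 8 * τ ≤ 1 / Θ) (hθ : 2 / Θ ≤ θ)
    (hN1 : 4 * Θ ^ 2 * (n + 1) ≤ N) (hN2 : 2 ^ (2 * W) ≤ N) (hN3 : (2 * n + 1) ^ (r + 3) ≤ N)
    (hJ : W + 1 ≤ J) (hT : Fd r W θ g T) :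
    ∃ C ∈ cands (r + 3) N Θ J n (smp f ω), ∀ l, l ∈ C ↔ ∃ i ∈ T, l = ((i : ℕ), o i) := by
  classical
  have hspec := fun A : Finset (Fin n) =>
    big_spec (o := fun _ => true) hΘ hm hrepX hfg hτ (cl_ori A) (cl_nodup A)
  -- a set which was found and the remaining literals
  have key : ∀ A ⊆ T, A.card ≤ W → cl A ∈ found N Θ J (vars n) (smp f ω) →
      (T \ A).card ≤ r + 3 → ∃ C ∈ cands (r + 3) N Θ J n (smp f ω),
        ∀ l, l ∈ C ↔ ∃ i ∈ T, l = ((i : ℕ), o i) := by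
    intro A hA hAW hAf hAc
    obtain ⟨D, hD, hDl⟩ := mem_subs (N := N) (C := both (cl A)) (by
      rw [length_both, length_cl]
      exact (Nat.pow_le_pow_right (by norm_num) (by omega)).trans hN2)
      (fun l => ∃ i : Fin n, l = ((i : ℕ), o i))
    refine ⟨D ++ lst o (T \ A), ?_, ?_⟩
    · unfold cands
      rw [List.mem_flatMap]
      refine ⟨_, hAf, ?_⟩
      rw [List.mem_flatMap]
      refine ⟨D, hD, List.mem_map.2 ⟨lst o (T \ A), mem_seeds ?_ ?_ ?_, rfl⟩⟩
      · rw [length_allLits]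
        exact hN3
      · rw [length_lst]
        exact hAc
      · intro l hl
        obtain ⟨i, _, rfl⟩ := mem_lst.1 hl
        exact mem_allLits.2 i.2
    · intro l
      rw [List.mem_append, hDl, mem_lst, mem_both]
      constructor
      · rintro (⟨⟨l', hl', h1⟩, i, rfl⟩ | ⟨i, hi, rfl⟩)
        · obtain ⟨k, hk, rfl⟩ := mem_cl.1 hl'
          have : k = i := Fin.ext h1
          subst this
          exact ⟨k, hA hk, rfl⟩
        · exact ⟨i, (mem_sdiff.1 hi).1, rfl⟩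
      · rintro ⟨i, hi, rfl⟩
        by_cases h : i ∈ A
        · exact Or.inl ⟨⟨((i : ℕ), true), mem_cl.2 ⟨i, h, rfl⟩, rfl⟩, i, rfl⟩
        · exact Or.inr ⟨i, mem_sdiff.2 ⟨hi, h⟩, rfl⟩
  rcases hT with h | ⟨h1, A, hA, hAc, hAR⟩
  · have e : cl (∅ : Finset (Fin n)) = [] := by
      rw [← List.length_eq_zero_iff, length_cl, card_empty]
    refine key ∅ (empty_subset _) (by simp) ?_ ?_
    · rw [e]
      exact nil_mem_found (by omega)
    · rw [sdiff_empty]
      omega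
  · have hAW : A.card ≤ W := (card_le_card hA).trans h1
    refine key A hA hAW ?_ (by omega)
    unfold found
    rw [List.mem_flatMap]
    refine ⟨A.card, List.mem_range.2 (by omega), ?_⟩
    refine mem_lvl hΘ (fun B hB => ?_) (fun B hB => ?_) hN1 hAR
    · have := (hspec B).1 hB
      rwa [fs_cl] at this
    · refine (hspec B).2 ?_
      rw [fs_cl]
      exact hθ.trans hB

/-- the empty conjunction is a candidate -/
theorem nil_mem_cands {N Θ J r : ℕ} {S : Samples} (hJ : 1 ≤ J) (hN : (2 * n + 1) ^ r ≤ N) :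
    [] ∈ cands r N Θ J n S := by
  have h1 : 1 ≤ N := (Nat.one_le_pow _ _ (by omega)).trans hN
  obtain ⟨D, hD, hDl⟩ := mem_subs (N := N) (C := both []) (by simpa [both] using h1)
    (fun _ => False)
  have hD0 : D = [] := by
    rw [List.eq_nil_iff_forall_not_mem]
    intro l hl
    exact ((hDl l).1 hl).2
  unfold cands
  rw [List.mem_flatMap]
  refine ⟨[], nil_mem_found hJ, ?_⟩
  rw [List.mem_flatMap]
  refine ⟨D, hD, List.mem_map.2 ⟨[], mem_seeds ?_ (by simp) (by simp), ?_⟩⟩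
  · rw [length_allLits]
    exact hN
  · rw [hD0]
    rfl

/-- all candidates are over the variables below `n` -/
theorem lt_cands {N Θ J r : ℕ} {S : Samples} {C : List Lit}
    (hC : C ∈ cands r N Θ J n S) : ∀ l ∈ C, l.1 < n := by
  unfold cands at hC
  obtain ⟨R, hR, hC⟩ := List.mem_flatMap.1 hC
  obtain ⟨D, hD, hC⟩ := List.mem_flatMap.1 hC
  obtain ⟨Z, hZ, rfl⟩ := List.mem_map.1 hC
  intro l hl
  rcases List.mem_append.1 hl with hl | hl
  · have h1 := (bd_subs N (both R) (both R) (fun _ h => h)).2 D hD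
    have h2 : l ∈ both R := h1.2 l hl
    obtain ⟨l', hl', h3⟩ := mem_both.1 h2
    unfold found at hR
    obtain ⟨j, _, hR⟩ := List.mem_flatMap.1 hR
    obtain ⟨A, rfl⟩ := lvl_cl (n := n) j R hR
    obtain ⟨i, _, rfl⟩ := mem_cl.1 hl'
    rw [← h3]
    exact i.2
  · exact mem_allLits.1 (((bd_seeds N r (allLits n)).2 Z hZ).2 l hl)

end Pool.Agent.H.MP_cba12a_lc.SP
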