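import Pool.Agent.H.MP_cba12a_lc.SP.Defs

/-!
The contribution of a dominating term to a coefficient.
-/

namespace Pool.Agent.H.MP_cba12a_lc.SP

open Finset SR

variable {n s : ℕ}

private theorem Dec_sum_ind (P : (Fin n → Bool) → Prop) : ∑ y, ind (P y) = pr P * 2 ^ n := by
  classical
  rw [← sum_bR P (fun y => decide (P y)) fun y => decide_eq_true_iff]
  refine sum_congr rfl fun y _ => ?_
  unfold ind bR
  by_cases hy : P y <;> simp [hy]

private theorem Dec_abs_chi (o : Fin n → Bool) (V : Finset (Fin n)) (y : Fin n → Bool) :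
    -1 ≤ chi o V y := by
  have h := chi_sq o V y
  nlinarith [sq_nonneg (chi o V y + 1), sq_nonneg (chi o V y - 1)]

private theorem Dec_point (S : Fin s → Finset (Fin n)) (σ : Fin s → Fin n → Bool)
    (K : Finset (Fin s)) (j : Fin s) (hj : j ∈ K) (x : Fin n → Bool) (hK : K ⊆ Nst S σ x)
    (V : Finset (Fin n)) (hV : V ⊆ S j) (y : Fin n → Bool) :
    bR (GK S σ K y) * chi x V y + ind ((Nst S σ y).Nonempty ∧ Nst S σ y ⊆ K) -
      2 * ind ((Nst S σ y).Nonempty ∧ Nst S σ y ⊆ K.erase j) ≤
      bR (sdnf S σ y) * chi x V y := by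
  classical
  by_cases h1 : Nst S σ y ⊆ K
  · have hG : GK S σ K y = false := by
      rw [← Bool.not_eq_true, GK_iff, not_not]
      exact h1
    rw [hG]
    by_cases h2 : (Nst S σ y).Nonempty
    · have hs : sdnf S σ y = true := sdnf_iff.2 h2
      rw [hs, ind_true (⟨h2, h1⟩ : (Nst S σ y).Nonempty ∧ Nst S σ y ⊆ K)]
      by_cases h3 : j ∈ Nst S σ y
      · have hc : chi x V y = 1 := by
          refine chi_on fun i hi => ?_
          rw [mem_Nst.1 h3 i (hV hi), mem_Nst.1 (hK hj) i (hV hi)]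
        have h4 : ¬ ((Nst S σ y).Nonempty ∧ Nst S σ y ⊆ K.erase j) := fun h =>
          notMem_erase j K (h.2 h3)
        rw [hc, ind_false h4]
        simp [bR]
      · have h4 : (Nst S σ y).Nonempty ∧ Nst S σ y ⊆ K.erase j :=
          ⟨h2, fun k hk => mem_erase.2 ⟨fun h => h3 (h ▸ hk), h1 hk⟩⟩
        have h6 := Dec_abs_chi x V y
        rw [ind_true h4]
        simp [bR]
        linarith
    · have hs : sdnf S σ y = false := by
        rw [← Bool.not_eq_true, sdnf_iff]
        exact h2
      rw [hs, ind_false fun h => h2 h.1, ind_false fun h => h2 h.1]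
      simp [bR]
  · have hG : GK S σ K y = true := GK_iff.2 h1
    have hs : sdnf S σ y = true := by
      rw [sdnf_iff]
      by_contra h
      rw [not_nonempty_iff_eq_empty] at h
      rw [h] at h1
      exact h1 (empty_subset K)
    rw [hG, hs, ind_false fun h => h1 h.2,
      ind_false fun h => h1 (h.2.trans (erase_subset j K))]
    linarith

/- PROOF. Pointwise inequality `Dec_point`, summed over `y` and divided by `2 ^ n`. -/
theorem co_ge (S : Fin s → Finset (Fin n)) (σ : Fin s → Fin n → Bool) (K : Finset (Fin s))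
    (j : Fin s) (hj : j ∈ K) (x : Fin n → Bool) (hK : K ⊆ Nst S σ x) (V : Finset (Fin n))
    (hV : V ⊆ S j) :
    co x (GK S σ K) V + (BB S σ K - 2 * BB S σ (K.erase j)) ≤ co x (sdnf S σ) V := by
  classical
  have hp : (0 : ℝ) < 2 ^ n := by positivity
  have h1 := sum_le_sum fun (y : Fin n → Bool) (_ : y ∈ univ) =>
    Dec_point S σ K j hj x hK V hV y
  rw [sum_sub_distrib, sum_add_distrib, ← mul_sum, Dec_sum_ind, Dec_sum_ind] at h1
  have h4 : pr (fun y => (Nst S σ y).Nonempty ∧ Nst S σ y ⊆ K) = BB S σ K := rfl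
  have h5 : pr (fun y => (Nst S σ y).Nonempty ∧ Nst S σ y ⊆ K.erase j) =
      BB S σ (K.erase j) := rfl
  rw [h4, h5] at h1
  unfold co
  rw [div_add' _ _ _ hp.ne', div_le_div_iff_of_pos_right hp]
  linarith

end Pool.Agent.H.MP_cba12a_lc.SP
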