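import Pool.Agent.H.MP_cba12a_lc.SP.Defs

/-!
Existence of a dominating term.
-/

namespace Pool.Agent.H.MP_cba12a_lc.SP

open Finset SR

variable {n s : ℕ}

/-
PROOF. Strong induction on the number of elements of `N`: if erasing the least element `j` leaves at
most a third of `B N` take `K = N`, otherwise go to `N.erase j`.
-/
theorem exists_gd (B : Finset (Fin s) → ℝ) (h0 : B ∅ = 0) (hB : ∀ K, 0 ≤ B K)
    (N : Finset (Fin s)) (hN : N.Nonempty) :
    ∃ K, K ⊆ N ∧ ∃ j, Fst K j ∧ (1 / 3) ^ N.card * B N ≤ B K - 2 * B (K.erase j) := by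
  classical
  obtain ⟨t, ht⟩ : ∃ t, t = N.card := ⟨_, rfl⟩
  induction t using Nat.strong_induction_on generalizing N with
  | _ t ih =>
    obtain ⟨j, hj⟩ : ∃ j, j = N.min' hN := ⟨_, rfl⟩
    have hjN : j ∈ N := by rw [hj]; exact N.min'_mem hN
    have hmin : ∀ i ∈ N, j ≤ i := fun i hi => by rw [hj]; exact N.min'_le i hi
    have hcard : 1 ≤ N.card := card_pos.2 hN
    by_cases h1 : B (N.erase j) ≤ B N / 3
    · refine ⟨N, subset_refl N, j, ⟨hjN, hmin⟩, ?_⟩
      have h2 : ((1 : ℝ) / 3) ^ N.card ≤ 1 / 3 := by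
        calc ((1 : ℝ) / 3) ^ N.card ≤ (1 / 3) ^ 1 :=
              pow_le_pow_of_le_one (by norm_num) (by norm_num) hcard
          _ = 1 / 3 := pow_one _
      have h3 : ((1 : ℝ) / 3) ^ N.card * B N ≤ 1 / 3 * B N := mul_le_mul_of_nonneg_right h2 (hB N)
      linarith
    · rw [not_le] at h1
      have h2 := hB N
      have hne : (N.erase j).Nonempty := by
        rw [nonempty_iff_ne_empty]
        intro h
        rw [h, h0] at h1
        linarith
      have hc : (N.erase j).card < t := by
        rw [card_erase_of_mem hjN]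
        omega
      obtain ⟨K, hK, j', hj', h3⟩ := ih _ hc (N.erase j) hne rfl
      refine ⟨K, hK.trans (erase_subset _ _), j', hj', ?_⟩
      refine le_trans ?_ h3
      have h4 : ((1 : ℝ) / 3) ^ N.card = (1 / 3) ^ (N.erase j).card * (1 / 3) := by
        rw [← pow_succ, card_erase_of_mem hjN]
        congr 1
        omega
      rw [h4, mul_assoc]
      exact mul_le_mul_of_nonneg_left (by linarith) (by positivity)

end Pool.Agent.H.MP_cba12a_lc.SP
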