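import Pool.Agent.H.MP_cba12a_lc.SP.Bfs
import Pool.Agent.H.MP_cba12a_lc.Final8

/-!
Accuracy of the learner on representative samples.
-/

namespace Pool.Agent.H.MP_cba12a_lc.SP

open Finset SR

variable {n m s : ℕ}

private theorem Err_dst (f g : (Fin n → Bool) → Bool) : dst f g = pr fun x => f x ≠ g x := by
  classical
  rw [pr_def]
  unfold dst mu ct
  rw [Fintype.card_fun, Fintype.card_fin, Fintype.card_bool]
  push_cast
  congr 2
  refine congrArg card ?_
  ext x
  simp

/-- acceptance in terms of the DNF -/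
private theorem Err_ev {f g : (Fin n → Bool) → Bool} {C : List Lit} {H : List (List Lit)}
    {τ X : ℝ} (hfg : dst f g ≤ τ) (hX : pr (fun x => sat (List.ofFn x) C = true ∧ g x = false) ≤ X) :
    mu (ev f false C H) ≤ X + τ := by
  have h1 := mu_ev_sub_le f g false C H
  have h2 : mu (ev g false C H) ≤ pr (fun x => sat (List.ofFn x) C = true ∧ g x = false) := by
    rw [mu_eq_pr]
    refine pr_mono fun x hx => ?_
    rw [ev_iff] at hx
    exact ⟨hx.2.1, hx.1⟩
  linarith

/- As `coreS_error` in the folder SR. -/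
theorem coreP_error {a B R N Θ J r W : ℕ} {τ θ : ℝ} {S : Fin s → Finset (Fin n)}
    {σ : Fin s → Fin n → Bool} {f : (Fin n → Bool) → Bool} {ω : Fin m → Fin n → Bool}
    (hm : 0 < m) (ha : 1 ≤ a) (hB : 0 < B) (hΘ : 0 < Θ) (hτ : 0 < τ)
    (hrep : Rep f ω R τ) (hrepX : RepX f ω τ) (hfg : dst f (sdnf S σ) ≤ τ)
    (hτΘ : 8 * τ ≤ 1 / Θ) (hθ : 2 / Θ ≤ θ) (hN1 : 4 * Θ ^ 2 * (n + 1) ≤ N)
    (hN2 : 2 ^ (2 * W) ≤ N) (hN3 : (2 * n + 1) ^ (r + 3) ≤ N) (hJ : W + 1 ≤ J)
    (hR : 1 < R * (1 / (B : ℝ) - τ)) (hRτ : R * (2 * τ) ≤ 1 / (16 * a))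
    (hs : ((s : ℝ) + 1) * (1 / B + (8 * a + 1) * τ) ≤ 1 / (8 * a))
    (h : pr (fun x => sdnf S σ x = false) ≤ 1 / (32 * (a : ℝ) ^ 2) ∨
      pr (fun x => Ls r W θ S σ x) ≤ 1 / (8 * (a : ℝ))) :
    mu (errE f (coreP (r + 3) (4 * a) B R N Θ J n (smp f ω))) ≤ 1 / a := by
  classical
  have ha' : (1 : ℝ) ≤ a := by exact_mod_cast ha
  have hB' : (0 : ℝ) < B := by exact_mod_cast hB
  have hs0 : (0 : ℝ) ≤ s := Nat.cast_nonneg s
  obtain ⟨g, hg⟩ : ∃ g, g = sdnf S σ := ⟨_, rfl⟩
  rw [← hg] at hfg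
  obtain ⟨X, hX⟩ : ∃ X : ℝ, X = 1 / B + (8 * a + 1) * τ := ⟨_, rfl⟩
  rw [← hX] at hs
  have hX0 : 0 ≤ X := by rw [hX]; positivity
  have hX1 : X ≤ 1 / (8 * a) := by nlinarith
  have hsX : (s : ℝ) * X ≤ 1 / (8 * a) := by nlinarith
  have hB0 : 0 < 1 / (B : ℝ) := by positivity
  have e8 : (1 : ℝ) / (8 * a) = 1 / 8 * (1 / a) := by field_simp
  have e16 : (1 : ℝ) / (16 * a) = 1 / 16 * (1 / a) := by field_simp
  have e4 : (1 : ℝ) / ((4 * a : ℕ) : ℝ) = 1 / 4 * (1 / a) := by push_cast; field_simp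
  have e32 : 4 * (a : ℝ) * (1 / (32 * (a : ℝ) ^ 2)) = 1 / 8 * (1 / a) := by field_simp; norm_num
  have hia : 0 < 1 / (a : ℝ) := by positivity
  have hτ1 : τ ≤ 1 / 16 * (1 / a) := by
    have h1 : (8 * (a : ℝ) + 1) * τ ≤ 1 / (8 * a) := by linarith
    have h2 : 9 * τ ≤ (8 * (a : ℝ) + 1) * τ := mul_le_mul_of_nonneg_right (by linarith) hτ.le
    rw [e8] at h1
    linarith
  obtain ⟨H, hHe, hHl, hHc, hfp, hrej⟩ := greedy8_spec (A := 4 * a) (B := B) (R := R) (f := f)
    (ω := ω) (Ls := cands (r + 3) N Θ J n (smp f ω)) hm (by omega) hB hτ hrep hR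
    (fun C hC l hl => lt_cands hC l hl)
  have hcore : coreP (r + 3) (4 * a) B R N Θ J n (smp f ω) = H := hHe
  rw [hcore]
  have h1 : mu (errE f H) ≤ mu (fpE f H) + mu (ev f true [] H) := by
    refine mu_le_add ?_
    intro x hx
    rw [errE_iff] at hx
    cases hfx : f x with
    | false =>
      left
      rw [hfx] at hx
      unfold fpE
      rw [hfx]
      cases h : satD (List.ofFn x) H
      · exact absurd h.symm hx
      · rfl
    | true =>
      right
      rw [hfx] at hx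
      refine ev_iff.2 ⟨hfx, rfl, ?_⟩
      cases h : satD (List.ofFn x) H
      · rfl
      · exact absurd h.symm hx
  rw [e4] at hfp
  rw [e16] at hRτ
  suffices hsuf : mu (ev f true [] H) ≤ 5 / 16 * (1 / a) by linarith
  rw [e8] at hX1 hsX
  rcases h with hA | hL
  · -- the DNF is almost always true
    have h2 := hrej [] (nil_mem_cands (by omega) hN3)
    have h3 : mu (ev f false [] H) ≤ 1 / (32 * (a : ℝ) ^ 2) + τ := by
      refine Err_ev hfg (le_trans (pr_mono ?_) hA)
      rintro x ⟨_, hx⟩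
      rw [← hg]
      exact hx
    have h4 : ((4 * a : ℕ) : ℝ) * (mu (ev f false [] H) + τ) ≤
        4 * (a : ℝ) * (1 / (32 * (a : ℝ) ^ 2) + τ + τ) := by
      push_cast
      exact mul_le_mul_of_nonneg_left (by linarith) (by linarith)
    have h5 : 4 * (a : ℝ) * (1 / (32 * (a : ℝ) ^ 2) + τ + τ) =
        4 * (a : ℝ) * (1 / (32 * (a : ℝ) ^ 2)) + 8 * a * τ := by ring
    rw [h5, e32] at h4
    have h6 : X = 1 / B + 8 * a * τ + τ := by rw [hX]; ring
    linarith
  · -- few points are lost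
    have hj : ∀ j, pr (fun x => Fd r W θ g (S j) ∧ (f x = true ∧ (∀ i ∈ S j, x i = σ j i) ∧
        satD (List.ofFn x) H = false)) ≤ X := by
      intro j
      by_cases hF : Fd r W θ g (S j)
      · obtain ⟨C, hC, hCT⟩ := exists_cands (o := σ j) hm hΘ hrepX hfg hτΘ hθ hN1 hN2 hN3 hJ hF
        have h2 := hrej C hC
        have h3 : mu (ev f false C H) ≤ 0 + τ := by
          refine Err_ev hfg (le_of_eq ?_)
          refine le_antisymm ?_ (pr_nonneg _)
          rw [pr_def, mu, ct, filter_false_of_mem]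
          · simp
          · intro x _ hx
            rw [decide_eq_true_iff] at hx
            obtain ⟨hx1, hx2⟩ := hx
            have h4 : g x = true := by
              rw [hg, sdnf_iff]
              exact ⟨j, mem_Nst.2 ((sat_iff_on hCT).1 hx1)⟩
            rw [hx2] at h4
            exact Bool.noConfusion h4
        have h4 : ((4 * a : ℕ) : ℝ) * (mu (ev f false C H) + τ) ≤ 8 * a * τ := by
          push_cast
          calc 4 * (a : ℝ) * (mu (ev f false C H) + τ) ≤ 4 * a * (2 * τ) :=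
                mul_le_mul_of_nonneg_left (by linarith) (by linarith)
            _ = 8 * a * τ := by ring
        have h5 : pr (fun x => Fd r W θ g (S j) ∧ (f x = true ∧
            (∀ i ∈ S j, x i = σ j i) ∧ satD (List.ofFn x) H = false)) ≤ mu (ev f true C H) := by
          rw [mu_eq_pr]
          refine pr_mono ?_
          rintro x ⟨_, hx1, hx2, hx3⟩
          exact ev_iff.2 ⟨hx1, (sat_iff_on hCT).2 hx2, hx3⟩
        have h6 : X = 1 / B + 8 * a * τ + τ := by rw [hX]; ring
        linarith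
      · refine le_trans (le_of_eq ?_) hX0
        refine le_antisymm ?_ (pr_nonneg _)
        rw [pr_def, mu, ct, filter_false_of_mem]
        · simp
        · intro x _ hx
          rw [decide_eq_true_iff] at hx
          exact hF hx.1
    have h2 : pr (fun x => ∃ j, Fd r W θ g (S j) ∧ (f x = true ∧
        (∀ i ∈ S j, x i = σ j i) ∧ satD (List.ofFn x) H = false)) ≤ s * X := by
      refine (pr_le_sum (univ : Finset (Fin s)) _ (fun j x => Fd r W θ g (S j) ∧
        (f x = true ∧ (∀ i ∈ S j, x i = σ j i) ∧ satD (List.ofFn x) H = false)) ?_).trans ?_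
      · rintro x ⟨j, hx⟩
        exact ⟨j, mem_univ j, hx⟩
      · refine (sum_le_sum fun j _ => hj j).trans ?_
        rw [sum_const, card_univ, Fintype.card_fin, nsmul_eq_mul]
    have h3 : mu (ev f true [] H) ≤ pr (fun x => f x ≠ g x) + pr (fun x =>
        (Ls r W θ S σ x) ∨ ∃ j, Fd r W θ g (S j) ∧ (f x = true ∧
        (∀ i ∈ S j, x i = σ j i) ∧ satD (List.ofFn x) H = false)) := by
      rw [mu_eq_pr]
      refine pr_le_add ?_
      intro x hx
      rw [ev_iff] at hx
      obtain ⟨hx1, _, hx2⟩ := hx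
      by_cases hfgx : f x = g x
      · right
        have hN : (Nst S σ x).Nonempty := by
          rw [← sdnf_iff, ← hg, ← hfgx, hx1]
        by_cases hall : ∀ j ∈ Nst S σ x, ¬ Fd r W θ g (S j)
        · left
          refine ⟨hN, ?_⟩
          rw [← hg]
          exact hall
        · right
          push Not at hall
          obtain ⟨j, hj1, hj2⟩ := hall
          exact ⟨j, hj2, hx1, mem_Nst.1 hj1, hx2⟩
      · exact Or.inl hfgx
    have h4 : pr (fun x =>
        (Ls r W θ S σ x) ∨ ∃ j, Fd r W θ g (S j) ∧ (f x = true ∧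
        (∀ i ∈ S j, x i = σ j i) ∧ satD (List.ofFn x) H = false)) ≤
        pr (fun x => Ls r W θ S σ x) + pr (fun x => ∃ j, Fd r W θ g (S j) ∧
        (f x = true ∧ (∀ i ∈ S j, x i = σ j i) ∧ satD (List.ofFn x) H = false)) :=
      pr_le_add fun x hx => hx
    rw [← Err_dst] at h3
    rw [e8] at hL
    linarith

end Pool.Agent.H.MP_cba12a_lc.SP
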