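import Pool.Agent.H.MP_cba12a_lc.SP.Defs

/-!
Few patterns are compatible with the search being stuck.
-/

namespace Pool.Agent.H.MP_cba12a_lc.SP

open Finset SR

variable {n : ℕ}

/-- Two points with negative coefficients on `A` and on the sets `insert i A`, `i ∈ T \ A`, agree
on `T \ A`. -/
theorem ng_agree {G : (Fin n → Bool) → Bool} {T A : Finset (Fin n)} {x z : Fin n → Bool}
    (hx : Ng G T A x) (hz : Ng G T A z) : On z (T \ A) x := by
  have hpos : ∀ V : Finset (Fin n), co x G V < 0 → co z G V < 0 → chi z V x = 1 := by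
    intro V h1 h2
    rw [co_change x z] at h1
    have h3 := chi_sq z V x
    have h4 : (chi z V x - 1) * (chi z V x + 1) = 0 := by linear_combination h3
    rcases mul_eq_zero.1 h4 with h5 | h5
    · linarith
    · have h6 : chi z V x = -1 := by linarith
      rw [h6] at h1
      linarith
  intro i hi
  have h1 := hpos A hx.1 hz.1
  have h2 := hpos (insert i A) (hx.2 i hi) (hz.2 i hi)
  have h3 : chi z (insert i A) x = sg1 z i x * chi z A x := by
    unfold chi
    rw [prod_insert (mem_sdiff.1 hi).2]
  rw [h2, h1, mul_one] at h3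
  unfold sg1 at h3
  by_contra hc
  rw [if_neg hc] at h3
  norm_num at h3

theorem sum_P_le (L : ℕ) :
    ∑ p ∈ (range L).filter (fun p => 1 ≤ p ∧ p + 3 ≤ L), ((3 : ℝ) / 2) ^ p ≤
      (3 / 2) ^ L - 1 := by
  by_cases h : 2 ≤ L
  · obtain ⟨m, rfl⟩ := Nat.exists_eq_add_of_le h
    have h1 : (range (2 + m)).filter (fun p => 1 ≤ p ∧ p + 3 ≤ 2 + m) ⊆ range m := by
      intro p hp
      simp only [mem_filter, mem_range] at *
      omega
    refine (sum_le_sum_of_subset_of_nonneg h1 fun _ _ _ => by positivity).trans ?_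
    rw [geom_sum_eq (by norm_num), pow_add]
    have h2 : (1 : ℝ) ≤ (3 / 2) ^ m := one_le_pow₀ (by norm_num)
    rw [div_le_iff₀ (by norm_num)]
    norm_num
    linarith
  · have h1 : (range L).filter (fun p => 1 ≤ p ∧ p + 3 ≤ L) = ∅ := by
      apply filter_eq_empty_iff.2
      intro t _ h2
      omega
    rw [h1, sum_empty]
    have h2 : (1 : ℝ) ≤ (3 / 2) ^ L := one_le_pow₀ (by norm_num)
    linarith

private theorem Ptn_pr_on (o : Fin n → Bool) (A : Finset (Fin n)) :
    pr (fun x => On o A x) = (1 / 2) ^ A.card := by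
  have h := pr_on o A (fun _ : Fin n → Bool => True)
  rw [Siz_pr_true, mul_one] at h
  rw [← h]
  exact pr_congr fun x => by simp

private theorem Ptn_zero {P : (Fin n → Bool) → Prop} (h : ∀ x, ¬ P x) {c : ℝ} (hc : 0 ≤ c) :
    pr P ≤ c := by
  have h1 : pr P ≤ pr (fun _ : Fin n → Bool => False) := pr_mono fun x hx => h x hx
  rw [Siz_pr_false] at h1
  exact h1.trans hc

private theorem Ptn_or (P Q : (Fin n → Bool) → Prop) :
    pr (fun x => P x ∨ Q x) ≤ pr P + pr Q := by
  classical
  have h := pr_le_sum (univ : Finset Bool) (fun x => P x ∨ Q x)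
    (fun b x => if b = true then P x else Q x) (by
      rintro x (h | h)
      · exact ⟨true, mem_univ _, by simpa using h⟩
      · exact ⟨false, mem_univ _, by simpa using h⟩)
  rw [Fintype.sum_bool] at h
  simpa using h

/-- Above a fixed set `D`, at most one pattern on `T` is negative on a given subset of `D`. -/
private theorem Ptn_one (G : (Fin n → Bool) → Bool) (T D V : Finset (Fin n)) (z : Fin n → Bool)
    (hV : V ⊆ D) : pr (fun x => Ng G T V x ∧ On z D x) ≤ (1 / 2) ^ T.card := by
  classical
  by_cases h : ∃ x1, Ng G T V x1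
  · obtain ⟨x1, h1⟩ := h
    rw [← Ptn_pr_on (fun i => if i ∈ D then z i else x1 i) T]
    refine pr_mono fun x hx i hi => ?_
    by_cases hD : i ∈ D
    · simp only [if_pos hD]
      exact hx.2 i hD
    · simp only [if_neg hD]
      exact ng_agree hx.1 h1 i (mem_sdiff.2 ⟨hi, fun h => hD (hV h)⟩)
  · exact Ptn_zero (fun x hx => h ⟨x, hx.1⟩) (by positivity)

theorem pr_PL_aux (G : (Fin n → Bool) → Bool) (T : Finset (Fin n)) (L : ℕ) :
    ∀ (D : Finset (Fin n)) (z : Fin n → Bool), D ⊆ T → (T \ D).card = L →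
      pr (fun x => PL G T x D ∧ On z D x) ≤
        T.card * ((3 / 2) ^ L - 1) * (1 / 2) ^ T.card := by
  classical
  induction L using Nat.strong_induction_on with
  | _ L ih =>
  intro D z hD hL
  refine (pr_le_sum ((range L).filter (fun p => 1 ≤ p ∧ p + 3 ≤ L)) _
    (fun p x => Ng G T (D ∪ pre (T \ D) p) x ∧ On z D x ∧
      ((∃ k, 1 ≤ k ∧ k ≤ (nx T D p).card ∧ Ng G T (pre (nx T D p) k) x) ∨
        PL G T x (nx T D p))) ?_).trans ?_
  · rintro x ⟨h1, h2⟩
    cases h1 with
    | @stop _ p k hp1 hp3 hN hk1 hk2 hNk =>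
      exact ⟨p, mem_filter.2 ⟨mem_range.2 (by omega), hp1, by omega⟩, hN, h2,
        Or.inl ⟨k, hk1, hk2, hNk⟩⟩
    | @step _ p hp1 hp3 hN hP =>
      exact ⟨p, mem_filter.2 ⟨mem_range.2 (by omega), hp1, by omega⟩, hN, h2, Or.inr hP⟩
  · have hp : ∀ p ∈ (range L).filter (fun p => 1 ≤ p ∧ p + 3 ≤ L),
        pr (fun x => Ng G T (D ∪ pre (T \ D) p) x ∧ On z D x ∧
          ((∃ k, 1 ≤ k ∧ k ≤ (nx T D p).card ∧ Ng G T (pre (nx T D p) k) x) ∨
            PL G T x (nx T D p))) ≤ T.card * (1 / 2) ^ T.card * (3 / 2) ^ p := by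
      intro p hp
      obtain ⟨-, hp1, hp3⟩ := mem_filter.1 hp
      by_cases hx0 : ∃ x0, Ng G T (D ∪ pre (T \ D) p) x0
      · obtain ⟨x0, hx0⟩ := hx0
        have hpre := pre_subset (T \ D) p
        have hnx : nx T D p ⊆ T := by
          unfold nx
          exact union_subset hD (sdiff_subset.trans sdiff_subset)
        have hT : T \ nx T D p = pre (T \ D) p := by
          ext i
          unfold nx
          simp only [mem_sdiff, mem_union]
          have := @hpre i
          simp only [mem_sdiff] at this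
          tauto
        have hc : (T \ nx T D p).card = p := by
          rw [hT, card_pre _ _ (by omega)]
        have hon : ∀ x, Ng G T (D ∪ pre (T \ D) p) x → On z D x →
            On (fun i => if i ∈ D then z i else x0 i) (nx T D p) x := by
          intro x h1 h2 i hi
          by_cases hiD : i ∈ D
          · simp only [if_pos hiD]
            exact h2 i hiD
          · simp only [if_neg hiD]
            refine ng_agree h1 hx0 i ?_
            unfold nx at hi
            simp only [mem_sdiff, mem_union] at hi ⊢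
            tauto
        have h1 := ih p (by omega) (nx T D p) (fun i => if i ∈ D then z i else x0 i) hnx hc
        have h2 : pr (fun x => (∃ k, 1 ≤ k ∧ k ≤ (nx T D p).card ∧
              Ng G T (pre (nx T D p) k) x) ∧
              On (fun i => if i ∈ D then z i else x0 i) (nx T D p) x) ≤
            T.card * (1 / 2) ^ T.card := by
          refine (pr_le_sum (Icc 1 (nx T D p).card) _
            (fun k x => Ng G T (pre (nx T D p) k) x ∧
              On (fun i => if i ∈ D then z i else x0 i) (nx T D p) x) ?_).trans ?_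
          · rintro x ⟨⟨k, hk1, hk2, hk3⟩, hk4⟩
            exact ⟨k, mem_Icc.2 ⟨hk1, hk2⟩, hk3, hk4⟩
          · refine (sum_le_card_nsmul _ _ _ fun k _ =>
              Ptn_one G T (nx T D p) _ _ (pre_subset _ _)).trans ?_
            rw [Nat.card_Icc, nsmul_eq_mul]
            refine mul_le_mul_of_nonneg_right ?_ (by positivity)
            have h3 := card_le_card hnx
            have h4 : (nx T D p).card + 1 - 1 ≤ T.card := by omega
            exact_mod_cast h4
        refine (pr_mono (Q := fun x => ((∃ k, 1 ≤ k ∧ k ≤ (nx T D p).card ∧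
              Ng G T (pre (nx T D p) k) x) ∧
              On (fun i => if i ∈ D then z i else x0 i) (nx T D p) x) ∨
            (PL G T x (nx T D p) ∧
              On (fun i => if i ∈ D then z i else x0 i) (nx T D p) x)) ?_).trans ?_
        · rintro x ⟨h3, h4, h5 | h5⟩
          · exact Or.inl ⟨h5, hon x h3 h4⟩
          · exact Or.inr ⟨h5, hon x h3 h4⟩
        · refine (Ptn_or _ _).trans ((add_le_add h2 h1).trans (le_of_eq ?_))
          ring
      · exact Ptn_zero (fun x hx => hx0 ⟨x, hx.1⟩) (by positivity)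
    refine (sum_le_sum hp).trans ?_
    rw [← mul_sum]
    have h1 := mul_le_mul_of_nonneg_left (sum_P_le L)
      (show (0 : ℝ) ≤ T.card * (1 / 2) ^ T.card by positivity)
    refine h1.trans (le_of_eq ?_)
    ring

/-- `D = ∅`: `(3/2) ^ T.card * (1/2) ^ T.card = (3/4) ^ T.card`. -/
theorem pr_PL_le (G : (Fin n → Bool) → Bool) (T : Finset (Fin n)) :
    pr (fun x => PL G T x ∅) ≤ T.card * (3 / 4) ^ T.card := by
  have h1 := pr_PL_aux G T T.card ∅ (fun _ => true) (empty_subset T) (by rw [sdiff_empty])
  have h2 : pr (fun x => PL G T x ∅) ≤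
      pr (fun x => PL G T x ∅ ∧ On (fun _ => true) ∅ x) :=
    pr_mono fun x hx => ⟨hx, fun i hi => absurd hi (notMem_empty i)⟩
  refine h2.trans (h1.trans ?_)
  have h3 : ((3 : ℝ) / 4) ^ T.card = (3 / 2) ^ T.card * (1 / 2) ^ T.card := by
    rw [← mul_pow]
    norm_num
  rw [h3, mul_assoc]
  refine mul_le_mul_of_nonneg_left ?_ (by positivity)
  refine mul_le_mul_of_nonneg_right ?_ (by positivity)
  linarith

end Pool.Agent.H.MP_cba12a_lc.SP
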