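import Pool.Agent.H.MP_cba12a_lc.SP.Defs

/-!
If no large part of a term can be reached, the pattern of the point is one of few.
-/

namespace Pool.Agent.H.MP_cba12a_lc.SP

open Finset SR

variable {n : ℕ}

private theorem Rch_run {θ : ℝ} {g : (Fin n → Bool) → Bool} {T E B : Finset (Fin n)}
    (hB : B ⊆ T \ E) (hE : Rc θ g T E) {m : ℕ} (hm : m ≤ B.card)
    (h : ∀ p, 1 ≤ p → p ≤ m → ¬ Bl θ g T (E ∪ pre B p)) :
    ∀ p, p ≤ m → Rc θ g T (E ∪ pre B p) := by
  intro p
  induction p with
  | zero =>
    intro _
    rw [pre_zero, union_empty]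
    exact hE
  | succ p ih =>
    intro hp
    obtain ⟨c, hc, hs, _⟩ := exists_pre_succ B p (by omega)
    have h1 : E ∪ pre B (p + 1) = insert c (E ∪ pre B p) := by
      rw [hs, union_insert]
    have h2 := h (p + 1) (by omega) hp
    rw [h1] at h2 ⊢
    refine Rc.step (ih (by omega)) ?_ h2
    rw [mem_sdiff] at hc ⊢
    have h3 := mem_sdiff.1 (hB hc.1)
    refine ⟨h3.1, fun h4 => ?_⟩
    rcases mem_union.1 h4 with h5 | h5
    · exact h3.2 h5
    · exact hc.2 h5

/-- Strong induction on the number of elements of `T \ D`: some initial segment of `T \ D`, added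
to `D`, is not reached; if `nx T D p` is reached use the induction hypothesis, if not some initial
segment of it is not reached from the empty set. -/
theorem stuck {θ : ℝ} {g G : (Fin n → Bool) → Bool} {T : Finset (Fin n)} {x : Fin n → Bool}
    (hN : ∀ A ⊆ T, Bl θ g T A → Ng G T A x) (hR : ¬ Rf θ g T) (D : Finset (Fin n)) (hD : D ⊆ T)
    (hDR : Rc θ g T D) : PL G T x D := by
  induction hL : (T \ D).card using Nat.strong_induction_on generalizing D with
  | _ L ih =>
    have h4 : 3 < L := by
      by_contra h
      exact hR ⟨D, hD, by omega, hDR⟩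
    have hsub : ∀ p, D ∪ pre (T \ D) p ⊆ T := fun p =>
      union_subset hD ((pre_subset _ _).trans sdiff_subset)
    have hcard : ∀ p, p ≤ L → (T \ (D ∪ pre (T \ D) p)).card = L - p := by
      intro p hp
      have h1 : T \ (D ∪ pre (T \ D) p) = (T \ D) \ pre (T \ D) p := by
        ext i
        simp only [mem_sdiff, mem_union]
        tauto
      rw [h1, card_sdiff_pre _ _ (by omega), hL]
    -- the first blocked initial segment
    have claim1 : ∃ p, 1 ≤ p ∧ p + 3 ≤ L ∧ Bl θ g T (D ∪ pre (T \ D) p) := by
      by_contra hcon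
      push Not at hcon
      have h5 := Rch_run (B := T \ D) (m := L - 3) Subset.rfl hDR (by omega)
        (fun p h1 h2 => hcon p h1 (by omega)) (L - 3) le_rfl
      refine hR ⟨_, hsub (L - 3), ?_, h5⟩
      rw [hcard (L - 3) (by omega)]
      omega
    obtain ⟨p, hp1, hp3, hpB⟩ := claim1
    have hNg := hN _ (hsub p) hpB
    have hsubN : nx T D p ⊆ T := union_subset hD (sdiff_subset.trans sdiff_subset)
    have hcN : (T \ nx T D p).card = p := by
      have h1 : T \ nx T D p = pre (T \ D) p := by
        ext i
        have h2 : i ∈ pre (T \ D) p → i ∈ T \ D := fun h => pre_subset _ _ h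
        simp only [nx, mem_sdiff, mem_union] at h2 ⊢
        tauto
      rw [h1, card_pre _ _ (by omega)]
    by_cases hr : Rc θ g T (nx T D p)
    · exact PL.step hp1 (by omega) hNg (ih p (by omega) _ hsubN hr hcN)
    · have claim2 : ∃ k, 1 ≤ k ∧ k ≤ (nx T D p).card ∧ Bl θ g T (pre (nx T D p) k) := by
        by_contra hcon
        push Not at hcon
        apply hr
        have h5 := Rch_run (θ := θ) (g := g) (T := T) (E := ∅) (B := nx T D p)
          (m := (nx T D p).card) (by rw [sdiff_empty]; exact hsubN) Rc.nil le_rfl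
          (fun k h1 h2 => by rw [empty_union]; exact hcon k h1 h2) (nx T D p).card le_rfl
        have h6 : pre (nx T D p) (nx T D p).card = nx T D p :=
          eq_of_subset_of_card_le (pre_subset _ _) (card_pre _ _ le_rfl).ge
        rwa [empty_union, h6] at h5
      obtain ⟨k, hk1, hk2, hkB⟩ := claim2
      exact PL.stop hp1 (by omega) hNg hk1 hk2
        (hN _ ((pre_subset _ _).trans hsubN) hkB)

end Pool.Agent.H.MP_cba12a_lc.SP
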