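import Pool.Agent.H.MP_cba12a_lc.SP.Dec
import Pool.Agent.H.MP_cba12a_lc.SP.Ptn
import Pool.Agent.H.MP_cba12a_lc.SP.Rch

/-!
A dominating term is rarely missed.
-/

namespace Pool.Agent.H.MP_cba12a_lc.SP

open Finset SR

variable {n s : ℕ}

/-
PROOF. If `K` holds at `x`, `j` dominates and a large part of `S j` cannot be reached, then the
pattern of `x` is in `PL (GK S σ K) (S j)` (`stuck`, with `co_ge`). `GK S σ K` is independent of the
signs of the terms of `K` (`av_mul_sat`); then `pr_PL_le`.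
-/
private theorem Key_ind {P Q : Prop} : ind (P ∧ Q) = ind P * ind Q := by
  by_cases hP : P
  · rw [ind_true hP, one_mul]
    exact ind_congr ⟨fun h => h.2, fun h => ⟨hP, h⟩⟩
  · rw [ind_false hP, zero_mul]
    exact ind_false fun h => hP h.1

private theorem Key_const (c : ℝ) : av (fun _ : Fin s → Fin n → Bool => c) = c := by
  unfold av
  have h : (0 : ℝ) < Fintype.card (Fin s → Fin n → Bool) := by
    exact_mod_cast Fintype.card_pos
  rw [sum_const, card_univ, nsmul_eq_mul, mul_comm, mul_div_assoc, div_self h.ne', mul_one]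

private theorem Key_off (S : Fin s → Finset (Fin n)) (K : Finset (Fin s)) (T : Finset (Fin n))
    (x : Fin n → Bool) : OffK K fun σ => ind (PL (GK S σ K) T x ∅) := by
  intro σ σ' h
  have h1 : GK S σ K = GK S σ' K := by
    funext y
    unfold GK
    congr 1
    rw [eq_iff_iff]
    constructor
    · rintro ⟨k, hk, h2⟩
      exact ⟨k, hk, fun i hi => by rw [← h k hk]; exact h2 i hi⟩
    · rintro ⟨k, hk, h2⟩
      exact ⟨k, hk, fun i hi => by rw [h k hk]; exact h2 i hi⟩
  show ind _ = ind _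
  rw [h1]

private theorem Key_neg (S : Fin s → Finset (Fin n)) (σ : Fin s → Fin n → Bool)
    (K : Finset (Fin s)) (j : Fin s) (hj : j ∈ K) {θ : ℝ} (hθ : 0 < θ) (x : Fin n → Bool)
    (hK : K ⊆ Nst S σ x) (hg : Gd θ S σ K j) {V : Finset (Fin n)} (hV : V ⊆ S j)
    (h : |co (fun _ => true) (sdnf S σ) V| < θ) : co x (GK S σ K) V < 0 := by
  have h1 := co_ge S σ K j hj x hK V hV
  have h2 := le_abs_self (co x (sdnf S σ) V)
  rw [abs_co_eq x (fun _ => true)] at h2
  unfold Gd at hg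
  linarith

theorem key (S : Fin s → Finset (Fin n)) (K : Finset (Fin s)) (j : Fin s) (hj : j ∈ K)
    (θ : ℝ) (hθ : 0 < θ) :
    av (fun σ => pr fun x => K ⊆ Nst S σ x ∧ Gd θ S σ K j ∧ ¬ Rf θ (sdnf S σ) (S j)) ≤
      (∏ k ∈ K, q S k) * ((S j).card * (3 / 4) ^ (S j).card) := by
  classical
  have h1 : av (fun σ => pr fun x => K ⊆ Nst S σ x ∧ Gd θ S σ K j ∧
      ¬ Rf θ (sdnf S σ) (S j)) ≤
      av (fun σ => pr fun x => K ⊆ Nst S σ x ∧ PL (GK S σ K) (S j) x ∅) := by
    refine av_mono fun σ => pr_mono fun x => ?_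
    rintro ⟨hK, hg, hR⟩
    refine ⟨hK, stuck (θ := θ) (g := sdnf S σ) (fun A hA hb => ?_) hR ∅ (empty_subset _) Rc.nil⟩
    refine ⟨Key_neg S σ K j hj hθ x hK hg hA hb.1, fun i hi => ?_⟩
    refine Key_neg S σ K j hj hθ x hK hg ?_ (hb.2 i hi)
    exact insert_subset (mem_sdiff.1 hi).1 hA
  refine h1.trans ?_
  have hprod : 0 ≤ ∏ k ∈ K, q S k := prod_nonneg fun k _ => (q_pos S k).le
  have h2 : ∀ x : Fin n → Bool, av (fun σ => ind (K ⊆ Nst S σ x ∧
      PL (GK S σ K) (S j) x ∅)) =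
      (∏ k ∈ K, q S k) * av fun σ => ind (PL (GK S σ K) (S j) x ∅) := by
    intro x
    rw [← av_mul_sat S x K _ (Key_off S K (S j) x)]
    exact congrArg av (funext fun σ => Key_ind)
  rw [av_pr, sum_congr rfl fun x _ => h2 x, ← mul_sum, mul_div_assoc, ← av_pr fun σ x =>
    PL (GK S σ K) (S j) x ∅]
  refine mul_le_mul_of_nonneg_left ?_ hprod
  refine (av_mono fun σ => pr_PL_le (GK S σ K) (S j)).trans ?_
  rw [Key_const]

end Pool.Agent.H.MP_cba12a_lc.SP
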