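import Pool.Agent.H.MP_cba12a_lc.SP.Defs

/-!
A point rarely belongs to a cell with few survivors.
-/

namespace Pool.Agent.H.MP_cba12a_lc.SP

open Finset SR

variable {n s : ℕ}

private theorem Sur_ind {P Q : Prop} : ind (P ∧ Q) = ind P * ind Q := by
  by_cases hP : P
  · rw [ind_true hP, one_mul]
    exact ind_congr ⟨fun h => h.2, fun h => ⟨hP, h⟩⟩
  · rw [ind_false hP, zero_mul]
    exact ind_false fun h => hP h.1

private theorem Sur_le {P Q : Prop} (h : P → Q) : ind P ≤ ind Q := by
  by_cases hP : P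
  · rw [ind_true hP, ind_true (h hP)]
  · rw [ind_false hP]
    exact ind_nonneg Q

private theorem Sur_const (c : ℝ) : av (fun _ : Fin s → Fin n → Bool => c) = c := by
  unfold av
  have h : (0 : ℝ) < Fintype.card (Fin s → Fin n → Bool) := by
    exact_mod_cast Fintype.card_pos
  rw [sum_const, card_univ, nsmul_eq_mul, mul_comm, mul_div_assoc, div_self h.ne', mul_one]

private theorem Sur_sum_on (x : Fin n → Bool) (T : Finset (Fin n)) :
    ∑ y, ind (On x T y) = (1 / 2) ^ T.card * 2 ^ n := by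
  have h := pr_on x T (fun _ : Fin n → Bool => True)
  rw [Siz_pr_true, mul_one] at h
  have h1 : pr (fun y => On x T y) = (1 / 2) ^ T.card := by
    rw [← h]
    exact pr_congr fun y => by simp
  have hp : (2 : ℝ) ^ n ≠ 0 := by positivity
  rw [Siz_pr_eq, div_eq_iff hp] at h1
  exact h1

private theorem Sur_GK {S : Fin s → Finset (Fin n)} {σ : Fin s → Fin n → Bool}
    {K : Finset (Fin s)} {x : Fin n → Bool} : GK S σ K x = false ↔ Nst S σ x ⊆ K := by
  have h := GK_iff (S := S) (σ := σ) (K := K) (x := x)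
  constructor
  · intro h1
    by_contra h2
    rw [h.2 h2] at h1
    exact Bool.noConfusion h1
  · intro h1
    by_contra h2
    exact h.1 (by simpa using h2) h1

/-
PROOF. Double counting of the pairs `x`, `y` which agree on `T`.
-/
theorem surv_aux (G : (Fin n → Bool) → Bool) (T : Finset (Fin n)) (δ : ℝ) (hδ : 0 ≤ δ) :
    pr (fun x => G x = false ∧ pr (fun y => On x T y ∧ G y = false) < δ * (1 / 2) ^ T.card) ≤
      δ := by
  classical
  have hN : (0 : ℝ) < 2 ^ n := by positivity
  obtain ⟨c, hc⟩ : ∃ c : ℝ, c = (1 / 2) ^ T.card := ⟨_, rfl⟩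
  have hc0 : 0 < c := by
    rw [hc]
    positivity
  obtain ⟨u, hu⟩ : ∃ u : (Fin n → Bool) → ℝ, u = fun x => pr (fun y => On x T y ∧ G y = false) :=
    ⟨_, rfl⟩
  have hsum : ∀ x : Fin n → Bool, ∑ y, ind (On x T y) = c * 2 ^ n := fun x => by
    rw [hc]
    exact Sur_sum_on x T
  have hagree : ∀ x y : Fin n → Bool, On x T y → u x = u y := by
    intro x y h
    rw [hu]
    refine pr_congr fun z => ?_
    constructor
    · rintro ⟨h1, h2⟩
      exact ⟨fun i hi => (h1 i hi).trans (h i hi).symm, h2⟩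
    · rintro ⟨h1, h2⟩
      exact ⟨fun i hi => (h1 i hi).trans (h i hi), h2⟩
  have hinner : ∀ y : Fin n → Bool,
      ∑ x, ind (On x T y) * ind (G x = false ∧ u x < δ * c) ≤ δ * c * 2 ^ n := by
    intro y
    by_cases hy : u y < δ * c
    · have h1 : ∑ x, ind (On x T y) * ind (G x = false ∧ u x < δ * c) ≤
          ∑ x, ind (On y T x ∧ G x = false) := by
        refine sum_le_sum fun x _ => ?_
        rw [← Sur_ind]
        exact Sur_le fun h => ⟨fun i hi => (h.1 i hi).symm, h.2.1⟩
      have h2 : ∑ x, ind (On y T x ∧ G x = false) = u y * 2 ^ n := by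
        rw [hu]
        show _ = pr (fun z => On y T z ∧ G z = false) * 2 ^ n
        rw [Siz_pr_eq, div_mul_cancel₀ _ hN.ne']
      rw [h2] at h1
      exact h1.trans (mul_le_mul_of_nonneg_right hy.le hN.le)
    · have h1 : ∑ x, ind (On x T y) * ind (G x = false ∧ u x < δ * c) = 0 := by
        refine sum_eq_zero fun x _ => ?_
        rw [← Sur_ind]
        refine ind_false fun h => hy ?_
        rw [← hagree x y h.1]
        exact h.2.2
      rw [h1]
      positivity
  have hmain : c * 2 ^ n * ∑ x, ind (G x = false ∧ u x < δ * c) ≤ 2 ^ n * (δ * c * 2 ^ n) := by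
    have h1 : c * 2 ^ n * ∑ x, ind (G x = false ∧ u x < δ * c) =
        ∑ y, ∑ x, ind (On x T y) * ind (G x = false ∧ u x < δ * c) := by
      rw [mul_sum, sum_comm]
      refine sum_congr rfl fun x _ => ?_
      rw [← hsum x, sum_mul]
    rw [h1]
    refine (sum_le_sum fun y _ => hinner y).trans ?_
    rw [sum_const, card_univ, nsmul_eq_mul]
    refine mul_le_mul_of_nonneg_right ?_ (by positivity)
    simp
  have hfin : ∑ x, ind (G x = false ∧ u x < δ * c) ≤ δ * 2 ^ n := by
    have h2 : c * 2 ^ n * ∑ x, ind (G x = false ∧ u x < δ * c) ≤ c * 2 ^ n * (δ * 2 ^ n) := by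
      refine hmain.trans (le_of_eq ?_)
      ring
    exact le_of_mul_le_mul_left h2 (mul_pos hc0 hN)
  rw [← hc]
  have h3 : pr (fun x => G x = false ∧ pr (fun y => On x T y ∧ G y = false) < δ * c) =
      (∑ x, ind (G x = false ∧ u x < δ * c)) / 2 ^ n := by
    rw [Siz_pr_eq, hu]
  rw [h3, div_le_iff₀ hN]
  exact hfin

private theorem Sur_off (S : Fin s → Finset (Fin n)) (K : Finset (Fin s)) (T : Finset (Fin n))
    (d : ℝ) (x : Fin n → Bool) :
    OffK K fun σ => ind (GK S σ K x = false ∧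
      pr (fun y => On x T y ∧ GK S σ K y = false) < d) := by
  intro σ σ' h
  have h1 : GK S σ K = GK S σ' K := by
    funext y
    unfold GK
    congr 1
    rw [eq_iff_iff]
    constructor
    · rintro ⟨k, hk, h2⟩
      exact ⟨k, hk, fun i hi => by rw [← h k hk]; exact h2 i hi⟩
    · rintro ⟨k, hk, h2⟩
      exact ⟨k, hk, fun i hi => by rw [h k hk]; exact h2 i hi⟩
  show ind _ = ind _
  rw [h1]

/-
PROOF. `GK S σ K` depends only on the signs of the terms outside `K`; `av_mul_sat`, `surv_aux`.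
-/
theorem surv (S : Fin s → Finset (Fin n)) (K : Finset (Fin s)) (T : Finset (Fin n)) (δ : ℝ)
    (hδ : 0 ≤ δ) :
    av (fun σ => pr fun x => Nst S σ x = K ∧
      pr (fun y => On x T y ∧ Nst S σ y ⊆ K) < δ * (1 / 2) ^ T.card) ≤
      (∏ k ∈ K, q S k) * δ := by
  classical
  have h1 : av (fun σ => pr fun x => Nst S σ x = K ∧
      pr (fun y => On x T y ∧ Nst S σ y ⊆ K) < δ * (1 / 2) ^ T.card) ≤
      av (fun σ => pr fun x => K ⊆ Nst S σ x ∧ (GK S σ K x = false ∧
        pr (fun y => On x T y ∧ GK S σ K y = false) < δ * (1 / 2) ^ T.card)) := by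
    refine av_mono fun σ => pr_mono fun x => ?_
    rintro ⟨hK, hp⟩
    refine ⟨hK.symm.subset, Sur_GK.2 hK.subset, ?_⟩
    have e : pr (fun y => On x T y ∧ GK S σ K y = false) =
        pr (fun y => On x T y ∧ Nst S σ y ⊆ K) :=
      pr_congr fun y => and_congr_right fun _ => Sur_GK
    rw [e]
    exact hp
  refine h1.trans ?_
  have hprod : 0 ≤ ∏ k ∈ K, q S k := prod_nonneg fun k _ => (q_pos S k).le
  have h2 : ∀ x : Fin n → Bool, av (fun σ => ind (K ⊆ Nst S σ x ∧ (GK S σ K x = false ∧
      pr (fun y => On x T y ∧ GK S σ K y = false) < δ * (1 / 2) ^ T.card))) =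
      (∏ k ∈ K, q S k) * av fun σ => ind (GK S σ K x = false ∧
        pr (fun y => On x T y ∧ GK S σ K y = false) < δ * (1 / 2) ^ T.card) := by
    intro x
    rw [← av_mul_sat S x K _ (Sur_off S K T (δ * (1 / 2) ^ T.card) x)]
    exact congrArg av (funext fun σ => Sur_ind)
  rw [av_pr, sum_congr rfl fun x _ => h2 x, ← mul_sum, mul_div_assoc, ← av_pr fun σ x =>
    (GK S σ K x = false ∧
      pr (fun y => On x T y ∧ GK S σ K y = false) < δ * (1 / 2) ^ T.card)]
  refine mul_le_mul_of_nonneg_left ?_ hprod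
  refine (av_mono fun σ => surv_aux (GK S σ K) T δ hδ).trans ?_
  rw [Sur_const]

end Pool.Agent.H.MP_cba12a_lc.SP
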