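import Pool.Agent.H.MP_cba12a_lc.SP.Key
import Pool.Agent.H.MP_cba12a_lc.SP.Sur
import Pool.Agent.H.MP_cba12a_lc.SP.Dsc
import Pool.Agent.H.MP_cba12a_lc.SR.Lost

/-!
Few points are lost.
-/

namespace Pool.Agent.H.MP_cba12a_lc.SP

open Finset SR

variable {n s : ℕ}

private theorem Lost_av_le {F : (Fin s → Fin n → Bool) → ℝ} {c : ℝ} (h : ∀ σ, F σ ≤ c) :
    av F ≤ c := by
  unfold av
  have hp : (0 : ℝ) < Fintype.card (Fin s → Fin n → Bool) := by
    exact_mod_cast Fintype.card_pos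
  rw [div_le_iff₀ hp]
  calc ∑ σ, F σ ≤ ∑ _σ : Fin s → Fin n → Bool, c := sum_le_sum fun σ _ => h σ
    _ = c * Fintype.card (Fin s → Fin n → Bool) := by
        rw [sum_const, card_univ, nsmul_eq_mul, mul_comm]

private theorem Lost_Z_nonneg (S : Fin s → Finset (Fin n)) : 0 ≤ Z S :=
  zero_le_one.trans (one_le_Z S)

private theorem Lost_av_G (S : Fin s → Finset (Fin n)) :
    av (fun σ => (∑ x, (2 : ℝ) ^ (Nst S σ x).card) / 2 ^ n) = Z S := by
  have e : (fun σ : Fin s → Fin n → Bool => (∑ x, (2 : ℝ) ^ (Nst S σ x).card) / 2 ^ n) =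
      fun σ => (1 / 2 ^ n) * ∑ x, (2 : ℝ) ^ (Nst S σ x).card := by
    funext σ
    ring
  rw [e, av_mul_left, av_sum]
  have h : ∀ x : Fin n → Bool, av (fun σ => (2 : ℝ) ^ (Nst S σ x).card) = Z S := av_two_pow S
  rw [sum_congr rfl fun x _ => h x, sum_const, card_univ, Fintype.card_fun, Fintype.card_fin,
    Fintype.card_bool, nsmul_eq_mul]
  push_cast
  have hp : (2 : ℝ) ^ n ≠ 0 := by positivity
  field_simp

private theorem Lost_pr_false {P : (Fin n → Bool) → Prop} (h : ∀ x, ¬ P x) : pr P ≤ 0 := by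
  have h1 := pr_le_sum (∅ : Finset ℕ) P (fun _ _ => False) fun x hx => absurd hx (h x)
  simpa using h1

/-- (a) a satisfied term is long -/
private theorem Lost_a (S : Fin s → Finset (Fin n)) (W : ℕ) (σ : Fin s → Fin n → Bool) :
    pr (fun x => ∃ j ∈ Nst S σ x, W < (S j).card) ≤ s * (1 / 2) ^ (W + 1) := by
  classical
  have h1 : pr (fun x => ∃ j ∈ Nst S σ x, W < (S j).card) ≤
      ∑ j ∈ univ.filter (fun j => W < (S j).card), pr (fun x => On (σ j) (S j) x ∧ True) := by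
    refine pr_le_sum _ _ (fun j x => On (σ j) (S j) x ∧ True) ?_
    rintro x ⟨j, hj, hW⟩
    exact ⟨j, mem_filter.2 ⟨mem_univ j, hW⟩, mem_Nst.1 hj, trivial⟩
  refine h1.trans ?_
  have h2 : ∀ j ∈ univ.filter (fun j => W < (S j).card),
      pr (fun x => On (σ j) (S j) x ∧ True) ≤ (1 / 2 : ℝ) ^ (W + 1) := by
    intro j hj
    rw [pr_on]
    calc (1 / 2 : ℝ) ^ (S j).card * pr (fun _ => True) ≤ (1 / 2 : ℝ) ^ (S j).card * 1 :=
          mul_le_mul_of_nonneg_left (pr_le_one _) (by positivity)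
      _ = (1 / 2 : ℝ) ^ (S j).card := mul_one _
      _ ≤ (1 / 2 : ℝ) ^ (W + 1) :=
          pow_le_pow_of_le_one (by norm_num) (by norm_num) (mem_filter.1 hj).2
  refine (sum_le_card_nsmul _ _ _ h2).trans ?_
  rw [nsmul_eq_mul]
  refine mul_le_mul_of_nonneg_right ?_ (by positivity)
  have h3 := card_filter_le (univ : Finset (Fin s)) (fun j => W < (S j).card)
  rw [card_univ, Fintype.card_fin] at h3
  exact_mod_cast h3

/-- (b) many terms are satisfied -/
private theorem Lost_b (S : Fin s → Finset (Fin n)) (m0 : ℕ) (σ : Fin s → Fin n → Bool) :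
    pr (fun x => m0 < (Nst S σ x).card) ≤
      (1 / 2) ^ (m0 + 1) * ((∑ x, (2 : ℝ) ^ (Nst S σ x).card) / 2 ^ n) := by
  classical
  have hp : (0 : ℝ) < 2 ^ n := by positivity
  have h1 := sum_bR (fun x => m0 < (Nst S σ x).card)
    (fun x => decide (m0 < (Nst S σ x).card)) fun x => decide_eq_true_iff
  rw [← mul_div_assoc, le_div_iff₀ hp, ← h1, mul_sum]
  refine sum_le_sum fun x _ => ?_
  unfold bR
  by_cases hx : m0 < (Nst S σ x).card
  · simp only [hx, decide_true, if_true]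
    have h2 : (2 : ℝ) ^ (m0 + 1) ≤ 2 ^ (Nst S σ x).card :=
      pow_le_pow_right₀ (by norm_num) hx
    calc (1 : ℝ) = (1 / 2) ^ (m0 + 1) * 2 ^ (m0 + 1) := by
          rw [← mul_pow]
          norm_num
      _ ≤ _ := mul_le_mul_of_nonneg_left h2 (by positivity)
  · simp only [hx, decide_false]
    positivity

/-- (c) few points near `x` survive -/
private def LostC (δ : ℝ) (S : Fin s → Finset (Fin n)) (K : Finset (Fin s))
    (σ : Fin s → Fin n → Bool) (x : Fin n → Bool) : Prop :=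
  ∃ hK : K.Nonempty, Nst S σ x = K ∧
    pr (fun y => On x (S (K.min' hK)) y ∧ Nst S σ y ⊆ K) < δ * (1 / 2) ^ (S (K.min' hK)).card

private theorem Lost_c (S : Fin s → Finset (Fin n)) (δ : ℝ) (hδ : 0 ≤ δ) (K : Finset (Fin s)) :
    av (fun σ => pr (LostC δ S K σ)) ≤ (∏ k ∈ K, q S k) * δ := by
  have hq : 0 ≤ ∏ k ∈ K, q S k := prod_nonneg fun k _ => (q_pos S k).le
  by_cases hK : K.Nonempty
  · refine le_trans (av_mono fun σ => pr_mono fun x hx => ?_) (surv S K (S (K.min' hK)) δ hδ)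
    obtain ⟨_, h1, h2⟩ := hx
    exact ⟨h1, h2⟩
  · refine (Lost_av_le (c := 0) fun σ => Lost_pr_false fun x hx => hK hx.1).trans ?_
    positivity

/-- (d) a dominating term is missed -/
private def LostD (r : ℕ) (θ : ℝ) (S : Fin s → Finset (Fin n)) (K : Finset (Fin s))
    (σ : Fin s → Fin n → Bool) (x : Fin n → Bool) : Prop :=
  ∃ hK : K.Nonempty, r < (S (K.min' hK)).card ∧ K ⊆ Nst S σ x ∧ Gd θ S σ K (K.min' hK) ∧
    ¬ Rf θ (sdnf S σ) (S (K.min' hK))

private theorem Lost_d (S : Fin s → Finset (Fin n)) (r : ℕ) (θ κ : ℝ) (hθ0 : 0 < θ)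
    (hκ0 : 0 ≤ κ) (hκ : ∀ j, r < (S j).card → ((S j).card : ℝ) * (3 / 4) ^ (S j).card ≤ κ)
    (K : Finset (Fin s)) :
    av (fun σ => pr (LostD r θ S K σ)) ≤ (∏ k ∈ K, q S k) * κ := by
  have hq : 0 ≤ ∏ k ∈ K, q S k := prod_nonneg fun k _ => (q_pos S k).le
  by_cases hK : K.Nonempty
  · by_cases hr : r < (S (K.min' hK)).card
    · refine le_trans (av_mono fun σ => pr_mono fun x hx => ?_)
        ((key S K (K.min' hK) (K.min'_mem hK) θ hθ0).trans
          (mul_le_mul_of_nonneg_left (hκ _ hr) hq))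
      obtain ⟨_, _, h1, h2, h3⟩ := hx
      exact ⟨h1, h2, h3⟩
    · refine (Lost_av_le (c := 0) fun σ => Lost_pr_false fun x hx => hr ?_).trans ?_
      · obtain ⟨_, h, _⟩ := hx
        exact h
      · positivity
  · refine (Lost_av_le (c := 0) fun σ => Lost_pr_false fun x hx => hK hx.1).trans ?_
    positivity

/-
PROOF. A lost point satisfies a long term, or many terms, or lies in a cell with few survivors, or
a dominating term of a subset of its set of terms is missed (`exists_gd`); see `key`, `surv`.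
-/
theorem av_lost (S : Fin s → Finset (Fin n)) (m0 r W : ℕ) (δ θ κ : ℝ) (hδ : 0 ≤ δ) (hθ0 : 0 < θ)
    (hθ : 2 * θ ≤ (1 / 3) ^ m0 * (δ * (1 / 2) ^ W))
    (hκ0 : 0 ≤ κ) (hκ : ∀ j, r < (S j).card → ((S j).card : ℝ) * (3 / 4) ^ (S j).card ≤ κ) :
    av (fun σ => pr fun x => Ls r W θ S σ x) ≤
      s * (1 / 2) ^ (W + 1) + Z S * ((1 / 2) ^ (m0 + 1) + δ + κ) := by
  classical
  -- the four cases
  have hcase : ∀ (σ : Fin s → Fin n → Bool) (x : Fin n → Bool), Ls r W θ S σ x →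
      (∃ j ∈ Nst S σ x, W < (S j).card) ∨ m0 < (Nst S σ x).card ∨
        (∃ K, LostC δ S K σ x) ∨ ∃ K, LostD r θ S K σ x := by
    intro σ x hL
    by_contra hcon
    push Not at hcon
    obtain ⟨ha, hb, hc, hd⟩ := hcon
    have hN := hL.1
    obtain ⟨j0, hj0⟩ : ∃ j, j = (Nst S σ x).min' hN := ⟨_, rfl⟩
    have hj0N : j0 ∈ Nst S σ x := by
      rw [hj0]
      exact (Nst S σ x).min'_mem hN
    have h1 : δ * (1 / 2) ^ (S j0).card ≤
        pr (fun y => On x (S j0) y ∧ Nst S σ y ⊆ Nst S σ x) := by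
      by_contra hlt
      rw [not_le] at hlt
      refine hc (Nst S σ x) ⟨hN, rfl, ?_⟩
      rw [← hj0]
      exact hlt
    have h2 : pr (fun y => On x (S j0) y ∧ Nst S σ y ⊆ Nst S σ x) ≤ BB S σ (Nst S σ x) := by
      unfold BB
      refine pr_mono fun y hy => ⟨⟨j0, mem_Nst.2 fun i hi => ?_⟩, hy.2⟩
      exact (hy.1 i hi).trans (mem_Nst.1 hj0N i hi)
    have h3 : δ * (1 / 2) ^ W ≤ BB S σ (Nst S σ x) := by
      refine le_trans ?_ (h1.trans h2)
      exact mul_le_mul_of_nonneg_left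
        (pow_le_pow_of_le_one (by norm_num) (by norm_num) (ha j0 hj0N)) hδ
    have hB0 : BB S σ ∅ = 0 := by
      refine le_antisymm ?_ (pr_nonneg _)
      refine Lost_pr_false fun y hy => ?_
      obtain ⟨k, hk⟩ := hy.1
      exact absurd (hy.2 hk) (notMem_empty k)
    obtain ⟨K, hKN, j, hj, hgd⟩ := exists_gd (BB S σ) hB0 (fun K => pr_nonneg _) (Nst S σ x) hN
    have hK : K.Nonempty := ⟨j, hj.1⟩
    have hjm : K.min' hK = j :=
      le_antisymm (K.min'_le j hj.1) (hj.2 _ (K.min'_mem hK))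
    have hjN := hKN hj.1
    have hg : Gd θ S σ K j := by
      unfold Gd
      refine (hθ.trans ?_).trans hgd
      refine mul_le_mul ?_ h3 (by positivity) (by positivity)
      exact pow_le_pow_of_le_one (by norm_num) (by norm_num) hb
    have hnf := hL.2 j hjN
    unfold Fd at hnf
    push Not at hnf
    refine hd K ⟨hK, ?_⟩
    rw [hjm]
    exact ⟨hnf.1, hKN, hg, hnf.2 (ha j hjN)⟩
  have hpr : ∀ σ : Fin s → Fin n → Bool, pr (fun x => Ls r W θ S σ x) ≤
      s * (1 / 2) ^ (W + 1) + ((1 / 2) ^ (m0 + 1) * ((∑ x, (2 : ℝ) ^ (Nst S σ x).card) / 2 ^ n) +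
        (∑ K : Finset (Fin s), pr (LostC δ S K σ) +
          ∑ K : Finset (Fin s), pr (LostD r θ S K σ))) := by
    intro σ
    refine (pr_le_add (hcase σ)).trans (add_le_add (Lost_a S W σ) ?_)
    refine (pr_le_add fun x hx => hx).trans (add_le_add (Lost_b S m0 σ) ?_)
    refine (pr_le_add fun x hx => hx).trans (add_le_add ?_ ?_)
    · refine pr_le_sum univ _ (fun K x => LostC δ S K σ x) ?_
      rintro x ⟨K, hK⟩
      exact ⟨K, mem_univ K, hK⟩
    · refine pr_le_sum univ _ (fun K x => LostD r θ S K σ x) ?_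
      rintro x ⟨K, hK⟩
      exact ⟨K, mem_univ K, hK⟩
  refine (av_mono hpr).trans ?_
  have hB : av (fun σ => (1 / 2 : ℝ) ^ (m0 + 1) *
      ((∑ x, (2 : ℝ) ^ (Nst S σ x).card) / 2 ^ n)) = (1 / 2) ^ (m0 + 1) * Z S := by
    rw [av_mul_left, Lost_av_G]
  rw [av_add, av_add, av_add, av_sum, av_sum, hB]
  have hconst : av (fun _ : Fin s → Fin n → Bool => (s : ℝ) * (1 / 2) ^ (W + 1)) ≤
      s * (1 / 2) ^ (W + 1) := Lost_av_le fun _ => le_refl _
  have hC : ∑ K : Finset (Fin s), av (fun σ => pr (LostC δ S K σ)) ≤ Z S * δ := by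
    refine (sum_le_sum fun K _ => Lost_c S δ hδ K).trans ?_
    rw [← sum_mul, sum_prod_q]
  have hD : ∑ K : Finset (Fin s), av (fun σ => pr (LostD r θ S K σ)) ≤ Z S * κ := by
    refine (sum_le_sum fun K _ => Lost_d S r θ κ hθ0 hκ0 hκ K).trans ?_
    rw [← sum_mul, sum_prod_q]
  calc _ ≤ (s : ℝ) * (1 / 2) ^ (W + 1) +
        ((1 / 2) ^ (m0 + 1) * Z S + (Z S * δ + Z S * κ)) :=
        add_le_add hconst (add_le_add le_rfl (add_le_add hC hD))
    _ = _ := by ring

end Pool.Agent.H.MP_cba12a_lc.SP
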