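import Pool.Agent.H.MP_cba12a_lc.SR.Num

/-!
The parameters of the learner.
-/

namespace Pool.Agent.H.MP_cba12a_lc.SP

open SR

/-- inverse of the threshold for the coefficients; `x = a * d` -/
def ThP (x s : ℕ) : ℕ := 2 ^ 30 * (2 * x) ^ 9 * (32 * (2 * x) * (s + 1))

/-- bound for the lengths of all lists; `T = (n + 1) ^ r` -/
def NP (x n s T : ℕ) : ℕ :=
  4 * ThP x s ^ 2 * (n + 1) + (32 * (2 * x) * (s + 1)) ^ 2 + (2 * n + 1) ^ 3 * T ^ 2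

section

variable {x n s T r : ℕ}

theorem num_ThP (hx : 1 ≤ x) :
    4 * (3 ^ mS x * (2 ^ (3 * Nat.clog 2 x + 10) * 2 ^ WS x s)) ≤ ThP x s := by
  obtain ⟨l, hl⟩ : ∃ l, l = Nat.clog 2 x := ⟨_, rfl⟩
  have h1 : 2 ^ l ≤ 2 * x := by rw [hl]; exact num_u hx
  have h3 := num_W (s := s) hx
  have h4 : 3 ^ mS x ≤ 4 ^ mS x := Nat.pow_le_pow_left (by norm_num) _
  have e : 4 * (4 ^ mS x * (2 ^ (3 * Nat.clog 2 x + 10) * 2 ^ WS x s)) =
      2 ^ 30 * (2 ^ l) ^ 9 * 2 ^ WS x s := by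
    unfold mS
    rw [← hl]
    have e4 : (4 : ℕ) = 2 ^ 2 := by norm_num
    rw [e4]
    simp only [← pow_mul, ← pow_add]
    congr 1
    ring
  calc 4 * (3 ^ mS x * (2 ^ (3 * Nat.clog 2 x + 10) * 2 ^ WS x s)) ≤
        4 * (4 ^ mS x * (2 ^ (3 * Nat.clog 2 x + 10) * 2 ^ WS x s)) := by gcongr
    _ = 2 ^ 30 * (2 ^ l) ^ 9 * 2 ^ WS x s := e
    _ ≤ 2 ^ 30 * (2 * x) ^ 9 * (32 * (2 * x) * (s + 1)) := by gcongr

theorem num_P1 : 4 * ThP x s ^ 2 * (n + 1) ≤ NP x n s T := by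
  unfold NP
  omega

theorem num_P2 (hx : 1 ≤ x) : 2 ^ (2 * WS x s) ≤ NP x n s T := by
  have h := Nat.pow_le_pow_left (num_W (s := s) hx) 2
  rw [← pow_mul, mul_comm] at h
  unfold NP
  omega

theorem num_P3 (hT : T = (n + 1) ^ r) : (2 * n + 1) ^ (r + 3) ≤ NP x n s T := by
  have h1 : 2 * n + 1 ≤ (n + 1) ^ 2 := by rw [add_sq]; omega
  have h2 : (2 * n + 1) ^ r ≤ T ^ 2 := by
    calc (2 * n + 1) ^ r ≤ ((n + 1) ^ 2) ^ r := Nat.pow_le_pow_left h1 r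
      _ = T ^ 2 := by rw [hT, ← pow_mul, ← pow_mul, mul_comm]
  have h3 : (2 * n + 1) ^ (r + 3) ≤ (2 * n + 1) ^ 3 * T ^ 2 := by
    rw [pow_add, mul_comm]
    exact Nat.mul_le_mul_left _ h2
  unfold NP
  omega

theorem ThP_mono {x' s' : ℕ} (h1 : x ≤ x') (h2 : s ≤ s') : ThP x s ≤ ThP x' s' := by
  unfold ThP
  gcongr

theorem num_ThP_pos (hx : 1 ≤ x) : 0 < ThP x s := by
  unfold ThP
  positivity

/-- the threshold is large compared with all other parameters -/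
theorem num_ThP_ge {a d : ℕ} (ha : 1 ≤ a) (hd : 1 ≤ d) :
    1024 * a ^ 2 * (s + 1) ≤ ThP (a * d) s := by
  unfold ThP
  have h1 : a ≤ 2 * (a * d) := by nlinarith
  have h2 : 1 ≤ 2 * (a * d) := by omega
  have h3 : a ^ 2 ≤ (2 * (a * d)) ^ 9 :=
    (Nat.pow_le_pow_left h1 2).trans (Nat.pow_le_pow_right h2 (by norm_num))
  have h5 : s + 1 ≤ 32 * (2 * (a * d)) * (s + 1) :=
    Nat.le_mul_of_pos_left _ (by positivity)
  calc 1024 * a ^ 2 * (s + 1) ≤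
      2 ^ 30 * (2 * (a * d)) ^ 9 * (32 * (2 * (a * d)) * (s + 1)) := by
        gcongr
        norm_num

end

theorem five_le_two_pow (k : ℕ) (hk : 5 ≤ k) : 5 * k + 4 ≤ 2 ^ k := by
  induction k, hk using Nat.le_induction with
  | base => norm_num
  | succ k hk ih =>
    rw [pow_succ]
    omega

/-- long terms -/
theorem num_kappa (L l : ℕ) (hL : 50 * (l + 1) ≤ L) :
    (L : ℝ) * (3 / 4) ^ L ≤ (1 / 2) ^ (3 * l + 10) := by
  obtain ⟨k, hk⟩ : ∃ k, k = L / 5 := ⟨_, rfl⟩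
  have h1 : 5 * k ≤ L := by omega
  have h2 : L ≤ 5 * k + 4 := by omega
  have h3 : 3 * l + 10 ≤ k := by omega
  have h4 : (L : ℝ) ≤ 2 ^ k := by
    have := h2.trans (five_le_two_pow k (by omega))
    exact_mod_cast this
  have h5 : ((3 : ℝ) / 4) ^ L ≤ (1 / 4) ^ k := by
    calc ((3 : ℝ) / 4) ^ L ≤ (3 / 4) ^ (5 * k) :=
          pow_le_pow_of_le_one (by norm_num) (by norm_num) h1
      _ = ((3 / 4) ^ 5) ^ k := by rw [pow_mul]
      _ ≤ (1 / 4) ^ k := pow_le_pow_left₀ (by positivity) (by norm_num) k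
  calc (L : ℝ) * (3 / 4) ^ L ≤ 2 ^ k * (1 / 4) ^ k := by gcongr
    _ = (1 / 2) ^ k := by rw [← mul_pow]; norm_num
    _ ≤ (1 / 2) ^ (3 * l + 10) := pow_le_pow_of_le_one (by norm_num) (by norm_num) h3

/-- the lost measure is small -/
theorem num_EP {a d s : ℕ} (ha : 1 ≤ a) (hd : 1 ≤ d) :
    (s : ℝ) * (1 / 2) ^ (WS (a * d) s + 1) + 32 * (a : ℝ) ^ 2 * d *
      ((1 / 2) ^ (mS (a * d) + 1) + (1 / 2) ^ (3 * Nat.clog 2 (a * d) + 10) +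
        (1 / 2) ^ (3 * Nat.clog 2 (a * d) + 10)) ≤ 1 / (8 * a * d) := by
  have h := num_E (s := s) ha hd
  have e : (2 : ℝ) * (1 / 2) ^ rS (a * d) = (1 / 2) ^ (3 * Nat.clog 2 (a * d) + 10) := by
    unfold rS
    rw [show 3 * Nat.clog 2 (a * d) + 11 = (3 * Nat.clog 2 (a * d) + 10) + 1 by ring, pow_succ]
    ring
  rw [e] at h
  exact h

end Pool.Agent.H.MP_cba12a_lc.SP
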